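import Pool.Agent.Helper47.CB.Core3B
import Pool.Agent.Helper18.CB.Num3

/-!
# CB, degree 3, piece CORE3: points without bad primes (proof)
-/

set_option autoImplicit false

namespace Pool.Agent.Helper47.CB

open Finset Pool.Agent.Helper4.CB Pool.Agent.Helper23.CB Pool.Agent.Helper69.CB

open Classical in
theorem core3 (n D k : ℕ) (hn : 1 ≤ n) (Cm : ℝ) : ∃ (Y0 E k0 : ℕ) (ε : ℝ), 0 < ε ∧ 1 ≤ E ∧
    ∀ (G : Type) [AddCommGroup G] (S : Sys (2 * n) G), S.D = D → (∀ q, Y0 ≤ S.nm q) → S.Mert Cm →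
    ∀ bad : Set S.Q,
    (∀ x : ℕ, 1 ≤ x → ∑ q ∈ (S.le x).filter (fun q => q ∈ bad), Real.log (S.nm q) / S.nm q ≤
      ε * Real.log x) →
    ∀ (F : Fin k → Fac3 n S) (Adm : ∀ l, Set (F l).B),
    (∀ l, (F l).d = 3 → (F l).Win ∧ (F l).AdmSum (Adm l) k0 ε) →
    (∀ q ∈ bad, ∀ g ∈ S.E q, g ∈ S.Γ q ∨ ∃ l, ∃ b ∈ (F l).P q, g ∈ (F l).Λ b) →
    ∀ (Γ0 : AddSubgroup G) (x0 : G) (τ : ℕ → G) (C : ℕ), Γ0.index ≠ 0 →
    (∀ T : Finset S.Q, Γ0 ⊔ T.inf S.Γ = ⊤) →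
    (∀ l, ∀ (b : (F l).B) (T : Finset S.Q), (∀ q ∈ (F l).pf b, q ∉ T) →
      Γ0 ⊔ ((F l).Λ b ⊓ T.inf S.Γ) = ⊤) →
    -- the cofactor of a bad prime
    (∀ X : ℕ, 1 ≤ X → ∀ g ∈ bx S.e (τ X) X, g - x0 ∈ Γ0 → (∀ q, g ∉ S.Γ q) →
      ∀ l, ∀ q ∈ bad, ∀ p ∈ (F l).P q, g ∈ (F l).Λ p → ∃ b : (F l).B, b ∈ Adm l ∧
        ((F l).pf b).Nonempty ∧ g ∈ (F l).Λ b ∧ (∀ q' ∈ (F l).pf b, g ∈ S.E q') ∧
        (F l).bn b * S.nm q ≤ C * X ^ ((F l).d * n)) →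
    -- common divisors
    (∀ X : ℕ, 1 ≤ X → ∀ g ∈ bx S.e (τ X) X, ∀ q, g ∈ S.Γ q → S.nm q ≤ C * X ^ n) →
    (∀ q, ∀ ρ : ℕ, S.nm q ≤ ρ ^ n → Rad S.e (S.Γ q) (C * ρ)) →
    (∀ T : Finset S.Q, ∑ q ∈ T, (S.nm q : ℝ) ^ (-(3 / 2) : ℝ) ≤ C) →
    ∃ T0 : ℕ, ∀ T : ℕ, T0 ≤ T → ((T ^ (2 * E) : ℕ) : ℝ) ^ ((2 * n : ℝ) - 1 / 2) ≤
      ((bx S.e (τ (T ^ (2 * E))) (T ^ (2 * E))).filter (fun g => g - x0 ∈ Γ0 ∧
        (∀ q ∈ bad, g ∉ S.E q) ∧ ∀ q, g ∉ S.Γ q)).card := by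
  obtain ⟨K, Y1, zs, hs⟩ := exists_siftB (2 * n) D Cm
  obtain ⟨c, hc⟩ : ∃ c : ℕ, c = K + 2 := ⟨_, rfl⟩
  obtain ⟨a, ha⟩ : ∃ a : ℕ, a = 3 * n * (c + 1) := ⟨_, rfl⟩
  obtain ⟨A0, hA⟩ : ∃ A0 : ℕ, A0 = a + 1 := ⟨_, rfl⟩
  obtain ⟨Y2, C', hVr⟩ := V_ratio D Cm A0
  obtain ⟨Y3, cV, hcV, hVl⟩ := V_lower D Cm (δ := 1 / 4) (by norm_num)
  obtain ⟨E, hE1, hE2, hE3, hE4, hE5, hnum⟩ := Pool.Agent.Helper18.CB.num3 n K c a A0 hn hc ha hA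
  have hn0 : (0 : ℝ) < n := by exact_mod_cast hn
  have hE0 : (0 : ℝ) < E := by exact_mod_cast hE3
  have hA1 : 1 ≤ A0 := by omega
  have hKp : (0 : ℝ) < |C'| + 1 := by positivity
  obtain ⟨ε, hε⟩ : ∃ ε : ℝ, ε = 1 / (240 * n * E * (k + 1) * (|C'| + 1)) := ⟨_, rfl⟩
  have hε0 : 0 < ε := by
    rw [hε]
    positivity
  refine ⟨max Y1 (max Y2 Y3), E, 3 * n * E + 1, ε, hε0, hE3, ?_⟩
  intro G _ S hD hY hM bad hbad F Adm hFA hcov Γ0 x0 τ C hΓ0 h0 hΛ0 hcof hgcd hrad hsum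
  have hs' : SiftB S K zs := hs G S hD (fun q => le_trans (le_max_left _ _) (hY q)) hM
  have hVr' := hVr (2 * n) G S hD
    (fun q => le_trans (le_trans (le_max_left _ _) (le_max_right _ _)) (hY q)) hM
  have hVl' := hVl (2 * n) G S hD
    (fun q => le_trans (le_trans (le_max_right _ _) (le_max_right _ _)) (hY q)) hM
  -- the constants of the factors of degree three
  have hW : ∀ l, ∃ Tw : ℕ, (F l).d = 3 → ∀ T : ℕ, Tw ≤ T → ∀ (τ : G) (A : Finset (F l).B),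
      (∀ b ∈ A, (∃ q, b ∈ (F l).P q) ∧ (F l).bn b ≤ T ^ (3 * n * E + a) ∧
        ¬ Rad S.e ((F l).Λ b) (T ^ (2 * E - c))) →
      ∑ b ∈ A, ((bx S.e τ (T ^ (2 * E))).filter (fun g => g ∈ (F l).Λ b)).card ≤
        T ^ (3 * n * E + 2 * a + 4 * n * c + 2) := by
    intro l
    by_cases h : (F l).d = 3
    · obtain ⟨Tw, h1⟩ := (hFA l h).1 E a c hE1
      exact ⟨Tw, fun _ => h1⟩
    · exact ⟨0, fun h' => absurd h' h⟩
  choose Tw hTw using hW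
  have hZ : ∀ l, ∃ Z0 : ℕ, (F l).d = 3 → ∀ z : ℕ, Z0 ≤ z → ∀ A : Finset (F l).B,
      (∀ b ∈ A, b ∈ Adm l ∧ (F l).bn b ≤ z ^ (3 * n * E + 1) ∧ ∀ q ∈ (F l).pf b, z < S.nm q) →
      ∑ b ∈ A, (1 : ℝ) / (F l).bn b ≤ ε := by
    intro l
    by_cases h : (F l).d = 3
    · obtain ⟨Z0, h1⟩ := (hFA l h).2
      exact ⟨Z0, fun _ => h1⟩
    · exact ⟨0, fun h' => absurd h' h⟩
  choose Z0 hZ0 using hZ
  obtain ⟨FC, hFCdef⟩ : ∃ FC : ℕ, FC = ∑ l, (F l).C := ⟨_, rfl⟩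
  have hFC : ∀ l, (F l).C ≤ FC := fun l => by
    rw [hFCdef]
    exact Finset.single_le_sum (f := fun l => (F l).C) (fun _ _ => Nat.zero_le _)
      (Finset.mem_univ l)
  have hTwl : ∀ l, Tw l ≤ ∑ l, Tw l := fun l =>
    Finset.single_le_sum (f := Tw) (fun _ _ => Nat.zero_le _) (Finset.mem_univ l)
  have hZ0l : ∀ l, Z0 l ≤ ∑ l, Z0 l := fun l =>
    Finset.single_le_sum (f := Z0) (fun _ _ => Nat.zero_le _) (Finset.mem_univ l)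
  obtain ⟨I0, hI0⟩ : ∃ I0 : ℕ, I0 = Γ0.index := ⟨_, rfl⟩
  have hI1 : 1 ≤ I0 := by rw [hI0]; exact Nat.one_le_iff_ne_zero.2 hΓ0
  have hI0r : (0 : ℝ) < I0 := by exact_mod_cast hI1
  obtain ⟨Cg, hCg⟩ : ∃ Cg : ℕ, Cg = (1 + 2 * C * (C + 1)) ^ (2 * n) * C + C := ⟨_, rfl⟩
  have hCCg : C ≤ Cg := by rw [hCg]; exact Nat.le_add_left _ _
  obtain ⟨T0, hT0⟩ := hnum I0 Cg FC (zs + 3 * I0 + ∑ l, Tw l + ∑ l, Z0 l) k hI1 cV hcV
  refine ⟨T0, fun T hT => ?_⟩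
  obtain ⟨g1, g2, g3, g4, _, g6, g7, g8, g9⟩ := hT0 T hT
  have hT1 : 1 ≤ T := by omega
  have hzs : zs ≤ T := by omega
  have hT2 : 3 * Γ0.index ≤ T ^ 2 := by
    rw [← hI0]
    have : T ≤ T ^ 2 := Nat.le_self_pow (by norm_num) T
    omega
  have hTA : T ≤ T ^ A0 := Nat.le_self_pow (by omega) T
  have hX1 : 1 ≤ T ^ (2 * E) := Nat.one_le_pow _ _ hT1
  have hTr : (0 : ℝ) < T := by exact_mod_cast hT1
  have hX2 : (((T ^ (2 * E) : ℕ) : ℝ)) ^ (2 * n) = (T : ℝ) ^ (4 * n * E) := by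
    push_cast
    rw [← pow_mul]
    congr 1
    ring
  -- the products
  have hV1 : cV * ((T ^ A0 : ℕ) : ℝ) ^ (-(1 / 4) : ℝ) ≤ S.V (T ^ A0) :=
    hVl' (T ^ A0) (Nat.one_le_pow _ _ hT1)
  have hVz0 : 0 < S.V (T ^ A0) := by
    refine lt_of_lt_of_le (mul_pos hcV (Real.rpow_pos_of_pos ?_ _)) hV1
    exact_mod_cast Nat.pow_pos (by omega : 0 < T)
  have hVT : 0 < S.V T :=
    lt_of_lt_of_le (mul_pos hcV (Real.rpow_pos_of_pos hTr _)) (hVl' T hT1)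
  have hVV : S.V T ≤ |C'| * S.V (T ^ A0) :=
    (hVr' T (T ^ A0) g2 hTA le_rfl).trans
      (mul_le_mul_of_nonneg_right (le_abs_self _) hVz0.le)
  obtain ⟨w1, w2, w3⟩ := g9 (S.V (T ^ A0)) hV1
  obtain ⟨Y, hYd⟩ : ∃ Y : ℝ, Y = (T : ℝ) ^ (4 * n * E) / I0 := ⟨_, rfl⟩
  have hY0 : 0 < Y := by
    rw [hYd]
    positivity
  rw [← hYd] at w1 w2 w3
  -- (0) the sieved set
  have hS : 3 / 4 * (Y * S.V (T ^ A0)) ≤
      (((bx S.e (τ (T ^ (2 * E))) (T ^ (2 * E))).filter (fun g => g - x0 ∈ Γ0 ∧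
        ∀ q ∈ S.le (T ^ A0), g ∉ S.E q)).card : ℝ) := by
    have h1 := lower_base S K zs hs' hΓ0 (hzs.trans hTA) (fun T' _ => h0 T')
      (X := T ^ (2 * E)) (by rw [← hI0]; exact g4) (τ (T ^ (2 * E))) x0
    rw [hX2, ← hI0, ← hYd] at h1
    exact h1
  -- (1) common divisors
  have hB1 : (((bx S.e (τ (T ^ (2 * E))) (T ^ (2 * E))).filter
      (fun g => ∃ q, T ^ A0 < S.nm q ∧ g ∈ S.Γ q)).card : ℝ) ≤
      1 / 16 * (Y * S.V (T ^ A0)) := by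
    have h1 := Pool.Agent.Helper79.CB.gcd_part hn S C (τ (T ^ (2 * E))) (T ^ (2 * E)) (T ^ A0)
      hX1 (Nat.one_le_pow _ _ hT1) (hgcd _ hX1) hrad hsum
    refine h1.trans (le_trans ?_ w1)
    rw [hX2]
    refine mul_le_mul_of_nonneg_right ?_ (Real.rpow_nonneg (Nat.cast_nonneg _) _)
    refine mul_le_mul_of_nonneg_right ?_ (by positivity)
    rw [hCg]
    push_cast
    have : (0 : ℝ) ≤ C := Nat.cast_nonneg _
    linarith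
  -- (2) and (3): the bad primes
  have htail : ∑ q ∈ (S.le (T ^ (4 * n * E))).filter (fun q => q ∈ bad ∧ T ^ A0 < S.nm q),
      (1 : ℝ) / S.nm q ≤ ε * (4 * n * E) := by
    have h1 := Pool.Agent.Helper79.CB.bad_tail S bad ε hbad (z0 := T ^ A0)
      (M := T ^ (4 * n * E)) (by omega) (Nat.one_le_pow _ _ hT1)
    refine h1.trans ?_
    have hl : 0 < Real.log T := Real.log_pos (by exact_mod_cast (by omega : 1 < T))
    push_cast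
    rw [Real.log_pow, Real.log_pow]
    have hA0r : (1 : ℝ) ≤ A0 := by exact_mod_cast hA1
    rw [div_le_iff₀ (by positivity)]
    push_cast
    calc ε * (4 * n * E * Real.log T) = ε * (4 * n * E) * (1 * Real.log T) := by ring
      _ ≤ ε * (4 * n * E) * (A0 * Real.log T) := by gcongr
  have hB2 : ∀ l, (((bx S.e (τ (T ^ (2 * E))) (T ^ (2 * E))).filter (fun g => g - x0 ∈ Γ0 ∧
      (∀ q ∈ S.le (T ^ A0), g ∉ S.E q) ∧
        (∀ q, g ∉ S.Γ q) ∧ ∃ q ∈ bad, g ∈ S.E q ∧ ∃ b ∈ (F l).P q, g ∈ (F l).Λ b)).card : ℝ) ≤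
      (T : ℝ) ^ (3 * n * E + 2 * a + 4 * n * c + 2) +
        5 / 4 * (Y * S.V T) * (ε * (12 * n * E + 1)) := by
    intro l
    have h1 := one_factor hn (F l) K zs hs' hΓ0 hzs g2 hT2 hc ha hA hE4 hE5 (hΛ0 l) bad (Adm l)
      (C := C) ((Nat.mul_le_mul_right _ (hFC l)).trans g3)
      ((Nat.mul_le_mul_right _ hCCg).trans g6)
      ((Nat.pow_le_pow_left (Nat.mul_le_mul_right _ hCCg) 2).trans g7)
      ((Nat.mul_le_mul_right _ hCCg).trans g8) hVT.le (ε := ε) hε0.le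
      (fun h => hTw l h T ((hTwl l).trans (by omega)))
      (fun h => hZ0 l h (T ^ A0) (((hZ0l l).trans (by omega)).trans hTA))
      (τ (T ^ (2 * E))) x0 (fun g hg hgΓ hgq q hq p hp hgp =>
        hcof (T ^ (2 * E)) hX1 g hg hgΓ hgq l q hq p hp hgp)
    rw [hX2, ← hI0, ← hYd] at h1
    refine h1.trans ?_
    have hp : 0 ≤ 5 / 4 * (Y * S.V T) := by positivity
    have h2 := mul_le_mul_of_nonneg_left htail hp
    have h3 : 5 / 4 * (Y * S.V T) * (3 * ∑ q ∈ (S.le (T ^ (4 * n * E))).filter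
        (fun q => q ∈ bad ∧ T ^ A0 < S.nm q), (1 : ℝ) / S.nm q) =
        3 * (5 / 4 * (Y * S.V T) * ∑ q ∈ (S.le (T ^ (4 * n * E))).filter
        (fun q => q ∈ bad ∧ T ^ A0 < S.nm q), (1 : ℝ) / S.nm q) := by ring
    rw [h3]
    calc _ ≤ 3 * (5 / 4 * (Y * S.V T) * (ε * (4 * n * E))) +
          ((T : ℝ) ^ (3 * n * E + 2 * a + 4 * n * c + 2) + 5 / 4 * (Y * S.V T) * ε) := by
          gcongr
      _ = _ := by ring
  have hB3 : ∑ l : Fin k, (((bx S.e (τ (T ^ (2 * E))) (T ^ (2 * E))).filter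
      (fun g => g - x0 ∈ Γ0 ∧ (∀ q ∈ S.le (T ^ A0), g ∉ S.E q) ∧
        (∀ q, g ∉ S.Γ q) ∧ ∃ q ∈ bad, g ∈ S.E q ∧ ∃ b ∈ (F l).P q, g ∈ (F l).Λ b)).card : ℝ) ≤
      1 / 16 * (Y * S.V (T ^ A0)) + 1 / 8 * (Y * S.V (T ^ A0)) := by
    refine (Finset.sum_le_sum (fun l _ => hB2 l)).trans ?_
    rw [Finset.sum_const, Finset.card_univ, Fintype.card_fin, nsmul_eq_mul, mul_add]
    refine add_le_add w2 ?_
    have hkr : (0 : ℝ) ≤ k := Nat.cast_nonneg _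
    have hnE : (1 : ℝ) ≤ n * E := by
      have : 1 ≤ n * E := Nat.mul_le_mul hn hE3
      exact_mod_cast this
    have h1 : ε * (12 * n * E + 1) ≤ 1 / (10 * (k + 1) * (|C'| + 1)) := by
      rw [hε, div_mul_eq_mul_div, one_mul, div_le_div_iff₀ (by positivity) (by positivity)]
      have h2 : 0 ≤ 10 * ((k : ℝ) + 1) * (|C'| + 1) := by positivity
      calc (12 * n * E + 1) * (10 * ((k : ℝ) + 1) * (|C'| + 1))
          ≤ (24 * (n * E)) * (10 * ((k : ℝ) + 1) * (|C'| + 1)) := by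
            refine mul_le_mul_of_nonneg_right ?_ h2
            linarith
        _ = _ := by ring
    calc (k : ℝ) * (5 / 4 * (Y * S.V T) * (ε * (12 * n * E + 1)))
        ≤ (k + 1) * (5 / 4 * (Y * (|C'| * S.V (T ^ A0))) * (1 / (10 * (k + 1) * (|C'| + 1)))) := by
          gcongr
          linarith
      _ = 1 / 8 * (Y * S.V (T ^ A0)) * (|C'| / (|C'| + 1)) := by
          field_simp
          ring
      _ ≤ 1 / 8 * (Y * S.V (T ^ A0)) * 1 := by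
          refine mul_le_mul_of_nonneg_left ?_ (by positivity)
          rw [div_le_one hKp]
          linarith
      _ = _ := by ring
  -- the union
  have hunion : (bx S.e (τ (T ^ (2 * E))) (T ^ (2 * E))).filter
      (fun g => g - x0 ∈ Γ0 ∧ ∀ q ∈ S.le (T ^ A0), g ∉ S.E q) ⊆
      (bx S.e (τ (T ^ (2 * E))) (T ^ (2 * E))).filter (fun g => g - x0 ∈ Γ0 ∧
        (∀ q ∈ bad, g ∉ S.E q) ∧ ∀ q, g ∉ S.Γ q) ∪
      ((bx S.e (τ (T ^ (2 * E))) (T ^ (2 * E))).filter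
        (fun g => ∃ q, T ^ A0 < S.nm q ∧ g ∈ S.Γ q) ∪
      (Finset.univ : Finset (Fin k)).biUnion (fun l =>
        (bx S.e (τ (T ^ (2 * E))) (T ^ (2 * E))).filter
      (fun g => g - x0 ∈ Γ0 ∧ (∀ q ∈ S.le (T ^ A0), g ∉ S.E q) ∧
        (∀ q, g ∉ S.Γ q) ∧ ∃ q ∈ bad, g ∈ S.E q ∧ ∃ b ∈ (F l).P q, g ∈ (F l).Λ b))) := by
    intro g hg
    rw [Finset.mem_filter] at hg
    rw [Finset.mem_union, Finset.mem_union, Finset.mem_filter, Finset.mem_filter,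
      Finset.mem_biUnion]
    by_cases hΓ : ∃ q, g ∈ S.Γ q
    · obtain ⟨q, hq⟩ := hΓ
      refine Or.inr (Or.inl ⟨hg.1, q, ?_, hq⟩)
      by_contra hcon
      exact hg.2.2 q (S.mem_le.mpr (not_lt.mp hcon)) (S.sub q g hq)
    · push Not at hΓ
      by_cases hEb : ∃ q ∈ bad, g ∈ S.E q
      · obtain ⟨q, hqb, hqE⟩ := hEb
        rcases hcov q hqb g hqE with h | ⟨l, b, hb, hgb⟩
        · exact absurd h (hΓ q)
        · refine Or.inr (Or.inr ⟨l, Finset.mem_univ _, ?_⟩)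
          rw [Finset.mem_filter]
          exact ⟨hg.1, hg.2.1, hg.2.2, hΓ, q, hqb, hqE, b, hb, hgb⟩
      · push Not at hEb
        exact Or.inl ⟨hg.1, hg.2.1, hEb, hΓ⟩
  have hcard := (Finset.card_le_card hunion).trans ((Finset.card_union_le _ _).trans
    (Nat.add_le_add_left ((Finset.card_union_le _ _).trans
      (Nat.add_le_add_left Finset.card_biUnion_le _)) _))
  have hcardr : (((bx S.e (τ (T ^ (2 * E))) (T ^ (2 * E))).filter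
      (fun g => g - x0 ∈ Γ0 ∧ ∀ q ∈ S.le (T ^ A0), g ∉ S.E q)).card : ℝ) ≤
      (((bx S.e (τ (T ^ (2 * E))) (T ^ (2 * E))).filter (fun g => g - x0 ∈ Γ0 ∧
        (∀ q ∈ bad, g ∉ S.E q) ∧ ∀ q, g ∉ S.Γ q)).card : ℝ) +
      ((((bx S.e (τ (T ^ (2 * E))) (T ^ (2 * E))).filter
        (fun g => ∃ q, T ^ A0 < S.nm q ∧ g ∈ S.Γ q)).card : ℝ) +
      ∑ l : Fin k, (((bx S.e (τ (T ^ (2 * E))) (T ^ (2 * E))).filter
      (fun g => g - x0 ∈ Γ0 ∧ (∀ q ∈ S.le (T ^ A0), g ∉ S.E q) ∧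
        (∀ q, g ∉ S.Γ q) ∧ ∃ q ∈ bad, g ∈ S.E q ∧ ∃ b ∈ (F l).P q, g ∈ (F l).Λ b)).card : ℝ)) := by
    exact_mod_cast hcard
  have hfin : 1 / 2 * (Y * S.V (T ^ A0)) ≤
      (((bx S.e (τ (T ^ (2 * E))) (T ^ (2 * E))).filter (fun g => g - x0 ∈ Γ0 ∧
        (∀ q ∈ bad, g ∉ S.E q) ∧ ∀ q, g ∉ S.Γ q)).card : ℝ) := by
    linarith
  exact w3.trans hfin

end Pool.Agent.Helper47.CB
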