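import Pool.Agent.Helper47.CB.FacP3
import Pool.Agent.Helper25.CB.SysG

/-!
# CB, degree 3: the factor `P(u, ν v)`, `P` of degree at most 3, over the system with scaling `ν`
-/

set_option autoImplicit false

namespace Pool.Agent.Helper47.CB

open NumberField Polynomial Finset Pool.Agent.Helper4.CB Pool.Agent.Helper25.CB
  Pool.Agent.Helper35.CB Pool.Agent.Helper23.CB

variable {K : Type} [Field K] [NumberField K]

/-- the factor `P(u, ν v)` -/
noncomputable def facP3G (S : Finset (𝓞 K)[X]) (hS : ∀ P ∈ S, P.Monic) (ν m D : ℕ)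
    (hμ : ∀ q : Pm K m, (ν : 𝓞 K) ∉ q.1.asIdeal)
    (hD : ∑ P ∈ S, P.natDegree + 1 ≤ D) (hν : ν ≠ 0) (P : (𝓞 K)[X]) (hP : P.Monic)
    (h1 : 1 ≤ P.natDegree) (h3 : P.natDegree ≤ 3)
    (hirr : Irreducible (P.map (algebraMap (𝓞 K) K)))
    (hdisc : ∀ q : Ideal (𝓞 K), (m : 𝓞 K) ∉ q → ∀ t, P.eval t ∈ q → P.derivative.eval t ∉ q) :
    Fac3 (Module.finrank ℚ K) (sysG S hS (ν : 𝓞 K) m D hμ hD) where
  d := P.natDegree
  one_le := h1
  le_three := h3
  B := BP K m P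
  bn := fun x => Ideal.absNorm x.1.1
  pf := fun x => pf x.1
  Λ := fun x => (Lam x.1.1 (rep x.2 * ν)).toAddSubgroup
  bn_pos := fun x => by
    rw [Ne, Ideal.absNorm_eq_zero_iff]
    exact x.1.2.1
  index := fun x => by
    rw [Lam_index, Ideal.absNorm_apply, Submodule.cardQuot_apply]
  nm_le := fun x _ hq => nm_le_absNorm x.1 hq
  sup := fun x T hT => by
    rw [eq_top_iff, ← sup_pf x.1 T hT]
    exact sup_le_sup_right (gam_le_Lam _ _) _
  P := fun q => (finite_over hP h3 hdisc q).1.toFinset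
  P_card := fun q => by
    rw [← Set.ncard_eq_toFinset_card _ (finite_over hP h3 hdisc q).1]
    exact (finite_over hP h3 hdisc q).2
  P_bn := fun q x hx => by
    rw [Set.Finite.mem_toFinset] at hx
    have hx' : x.1 = ofPm q := hx
    rw [hx']
    rfl
  P_pf := fun q x hx => by
    rw [Set.Finite.mem_toFinset] at hx
    have hx' : x.1 = ofPm q := hx
    rw [hx']
    exact pf_ofPm q
  C := (rad_Lam K Module.finrank_pos (bas1 K) (eK K) P hP h1 h3 hirr ν hν).choose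
  rad := fun x ρ hρ =>
    (rad_Lam K Module.finrank_pos (bas1 K) (eK K) P hP h1 h3 hirr ν hν).choose_spec x.1.1
      (rep x.2) x.1.2.1 (eval_rep x.2) ρ hρ

section

variable {S : Finset (𝓞 K)[X]} {hS : ∀ P ∈ S, P.Monic} {ν m D : ℕ}
  {hμ : ∀ q : Pm K m, (ν : 𝓞 K) ∉ q.1.asIdeal}
  {hD : ∑ P ∈ S, P.natDegree + 1 ≤ D} {hν : ν ≠ 0} {P : (𝓞 K)[X]} {hP : P.Monic}
  {h1 : 1 ≤ P.natDegree} {h3 : P.natDegree ≤ 3}
  {hirr : Irreducible (P.map (algebraMap (𝓞 K) K))}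
  {hdisc : ∀ q : Ideal (𝓞 K), (m : 𝓞 K) ∉ q → ∀ t, P.eval t ∈ q → P.derivative.eval t ∉ q}

theorem memG_P (q : Pm K m) (x : BP K m P) :
    x ∈ (facP3G S hS ν m D hμ hD hν P hP h1 h3 hirr hdisc).P q ↔ x.1 = ofPm q := by
  have h : x ∈ (finite_over hP h3 hdisc q).1.toFinset ↔ x.1 = ofPm q := by
    rw [Set.Finite.mem_toFinset]
    exact Iff.rfl
  exact h

theorem memG_Lam3 (x : BP K m P) (g : 𝓞 K × 𝓞 K) :
    g ∈ (facP3G S hS ν m D hμ hD hν P hP h1 h3 hirr hdisc).Λ x ↔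
      g ∈ Lam x.1.1 (rep x.2 * ν) := Iff.rfl

/-- **WIN** for the factor `P(u, ν v)` -/
theorem facP3G_win (hd : P.natDegree = 3) :
    (facP3G S hS ν m D hμ hD hν P hP h1 h3 hirr hdisc).Win := by
  classical
  intro E a c hE
  obtain ⟨T0, hT0⟩ := win_Lam K (n := Module.finrank ℚ K) Module.finrank_pos (bas1 K) (eK K) P hP
    hd hirr ν hν E a c hE
  refine ⟨T0, fun T hT τ A hA => ?_⟩
  have hA' : ∀ x ∈ A, (∃ q : Pm K m, x.1 = ofPm q) ∧
      Ideal.absNorm x.1.1 ≤ T ^ (3 * Module.finrank ℚ K * E + a) ∧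
      ¬ Rad (eK K) (Lam x.1.1 (rep x.2 * ν)).toAddSubgroup (T ^ (2 * E - c)) := by
    intro x hx
    obtain ⟨⟨q, hq⟩, h4, h5⟩ := hA x hx
    exact ⟨⟨q, (memG_P q x).mp hq⟩, h4, h5⟩
  let A' : Finset (Ideal (𝓞 K) × 𝓞 K) :=
    (show Finset (BP K m P) from A).map ⟨toPair, toPair_injective⟩
  have h4 := hT0 T hT τ A' (by
    intro y hy
    obtain ⟨x, hx, rfl⟩ := mem_map.mp hy
    obtain ⟨⟨q, hq⟩, h6, h7⟩ := hA' x hx
    refine ⟨?_, x.1.2.1, eval_rep x.2, h6, h7⟩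
    show x.1.1.IsPrime
    rw [hq]
    exact q.1.isPrime) (by
    intro y hy z hz h5 h6
    obtain ⟨x, hx, rfl⟩ := mem_map.mp hy
    obtain ⟨x', hx', rfl⟩ := mem_map.mp hz
    exact congrArg toPair (toPair_cond h5 h6))
  rw [sum_map] at h4
  refine le_trans (le_of_eq ?_) h4
  refine sum_congr rfl fun x _ => ?_
  congr 1

end

end Pool.Agent.Helper47.CB
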