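import Pool.Agent.Helper23.CB.LatF
import Pool.Agent.Helper4.CB.STM

/-!
# CB, degree <= 3: the covering radius of the lattices of a polynomial (RAD)
-/

set_option autoImplicit false

namespace Pool.Agent.Helper47.CB

open Finset Module NumberField Polynomial Pool.Agent.Helper4.CB Pool.Agent.Helper23.CB

/-- **RAD**, from the facts of `Lam3` -/
theorem rad_Lam_of (K : Type) [Field K] [NumberField K] {n : ℕ} (hn : 0 < n)
    (B : Basis (Fin n) ℤ (𝓞 K)) (e : (Fin (2 * n) → ℤ) ≃+ 𝓞 K × 𝓞 K) (P : (𝓞 K)[X])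
    (h1 : 1 ≤ P.natDegree) (m : ℕ)
    (hcoord : ∃ C : ℕ, (∀ w i, |e.symm w i| ≤ C * sz2 B w) ∧
      ∀ (w : 𝓞 K × 𝓞 K) (X : ℕ), (∀ i, |e.symm w i| ≤ X) → sz2 B w ≤ C * X)
    (hmem : ∀ (b : Ideal (𝓞 K)) (t : 𝓞 K), P.eval t ∈ b → ∀ w ∈ Lam b (t * m),
      hv P w.1 (m * w.2) ∈ b)
    (hne : 2 ≤ P.natDegree → ∀ w : 𝓞 K × 𝓞 K, w ≠ 0 → hv P w.1 (m * w.2) ≠ 0)
    (hnorm : ∃ C : ℕ, 0 < C ∧ ∀ w : 𝓞 K × 𝓞 K, hv P w.1 (m * w.2) ≠ 0 →
      Ideal.absNorm (Ideal.span {hv P w.1 (m * w.2)}) ≤ C * sz2 B w ^ (P.natDegree * n)) :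
    ∃ C : ℕ, ∀ (b : Ideal (𝓞 K)) (t : 𝓞 K), b ≠ ⊥ → P.eval t ∈ b → ∀ ρ : ℕ,
      Ideal.absNorm b ^ (max (P.natDegree - 1) 1) ≤ ρ ^ (P.natDegree * n) →
      Rad e (Lam b (t * m)).toAddSubgroup (C * ρ) := by
  classical
  obtain ⟨C3, hC3, -⟩ := hcoord
  obtain ⟨C2, hC2⟩ := radius B hn
  obtain ⟨C1, hC10, hC1⟩ := hnorm
  refine ⟨C3 * (C2 * (3 * C1)), fun b t hb ht ρ hρ => ?_⟩
  set Λ := Lam b (t * m) with hΛ
  set q := Ideal.absNorm b with hq
  have hidx : Λ.toAddSubgroup.index = q := by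
    rw [hΛ, Lam_index, hq, Ideal.absNorm_apply, Submodule.cardQuot_apply]
  have hq0 : q ≠ 0 := by
    rw [hq, Ne, Ideal.absNorm_eq_zero_iff]
    exact hb
  have hq1 : 1 ≤ q := Nat.one_le_iff_ne_zero.mpr hq0
  have hρ1 : 1 ≤ ρ := by
    rcases Nat.eq_zero_or_pos ρ with h | h
    · exfalso
      rw [h, zero_pow (by positivity)] at hρ
      have := Nat.one_le_pow (max (P.natDegree - 1) 1) q hq1
      omega
    · exact h
  suffices h : ∀ z : 𝓞 K × 𝓞 K, ∃ w ∈ Λ, sz2 B (z - w) ≤ C2 * (3 * C1 * ρ) by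
    intro z
    obtain ⟨w, hw, hwz⟩ := h z
    refine ⟨w, hw, fun i => ?_⟩
    refine (hC3 (z - w) i).trans ?_
    have h5 : C3 * sz2 B (z - w) ≤ C3 * (C2 * (3 * C1 * ρ)) := Nat.mul_le_mul_left _ hwz
    have h6 : C3 * (C2 * (3 * C1 * ρ)) = C3 * (C2 * (3 * C1)) * ρ := by ring
    rw [h6] at h5
    exact_mod_cast h5
  by_cases hd : 2 ≤ P.natDegree
  · -- degree at least two
    have hmax : max (P.natDegree - 1) 1 = P.natDegree - 1 := max_eq_left (by omega)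
    rw [hmax] at hρ
    set d := P.natDegree with hdd
    -- an upper bound for `q`
    have hqρ : q ≤ ρ ^ (2 * n) := by
      have h2 : q ^ (d - 1) ≤ (ρ ^ (2 * n)) ^ (d - 1) := by
        refine hρ.trans ?_
        rw [← pow_mul]
        refine Nat.pow_le_pow_right hρ1 ?_
        have h3 : d ≤ 2 * (d - 1) := by omega
        calc d * n ≤ (2 * (d - 1)) * n := Nat.mul_le_mul_right _ h3
          _ = 2 * n * (d - 1) := by ring
      exact le_of_pow_le_pow_left₀ (by omega) (Nat.zero_le _) h2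
    have hshort : ∀ R : ℕ, ρ ≤ R → Λ.toAddSubgroup.index < (R + 1) ^ (2 * n) := by
      intro R hR
      rw [hidx]
      refine hqρ.trans_lt ?_
      exact Nat.pow_lt_pow_left (by omega) (by omega)
    have hex : ∃ l : ℕ, ∃ w ∈ Λ, w ≠ 0 ∧ sz2 B w = l := by
      obtain ⟨w, hw, hw0, -⟩ := exists_short B Λ ρ (by rw [hidx]; exact hq0) (hshort ρ le_rfl)
      exact ⟨_, w, hw, hw0, rfl⟩
    obtain ⟨w1, hw1, hw10, hw1l⟩ := Nat.find_spec hex
    set l := Nat.find hex with hl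
    have hmin : ∀ w ∈ Λ, w ≠ 0 → l ≤ sz2 B w := fun w hw hw0 =>
      Nat.find_min' hex ⟨w, hw, hw0, rfl⟩
    have hl0 : 0 < l := by
      rw [← hw1l]
      exact Nat.pos_of_ne_zero fun h => hw10 (sz2_eq_zero h)
    have hql : q ≤ C1 * l ^ (d * n) := by
      have h2 := hmem b t ht w1 hw1
      have h3 := hne hd w1 hw10
      have h4 := hC1 w1 h3
      rw [hw1l] at h4
      refine le_trans (Nat.le_of_dvd ?_ (Ideal.absNorm_dvd_absNorm_of_le ?_)) h4
      · refine Nat.pos_of_ne_zero ?_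
        rw [Ne, Ideal.absNorm_eq_zero_iff, Ideal.span_singleton_eq_bot]
        exact h3
      · rw [Ideal.span_le, Set.singleton_subset_iff]
        exact h2
    have hlR : l ≤ 3 * C1 * ρ := by
      have h5 : ρ ≤ 3 * C1 * ρ := Nat.le_mul_of_pos_left _ (by positivity)
      obtain ⟨w, hw, hw0, hwR⟩ := exists_short B Λ ρ (by rw [hidx]; exact hq0) (hshort ρ le_rfl)
      exact (hmin w hw hw0).trans (hwR.trans h5)
    refine hC2 Λ l (3 * C1 * ρ) (by rw [hidx]; exact hq0) hl0 hmin hlR ?_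
    rw [hidx]
    have hdn : 0 < d * n := Nat.mul_pos (by omega) hn
    have h6 : (3 ^ n * q) ^ d ≤ ((3 * C1 * ρ * l) ^ n) ^ d := by
      have h7 : C1 * (3 ^ n * q) ^ d ≤ C1 * ((3 * C1 * ρ * l) ^ n) ^ d := by
        calc C1 * (3 ^ n * q) ^ d = C1 * 3 ^ (d * n) * (q ^ (d - 1) * q) := by
              rw [← pow_succ, Nat.sub_add_cancel (by omega : 1 ≤ d), mul_pow, ← pow_mul,
                mul_comm n d]
              ring
          _ ≤ C1 * 3 ^ (d * n) * (ρ ^ (d * n) * (C1 * l ^ (d * n))) :=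
              Nat.mul_le_mul_left _ (Nat.mul_le_mul hρ hql)
          _ = C1 * (3 ^ (d * n) * C1 * (ρ ^ (d * n) * l ^ (d * n))) := by ring
          _ ≤ C1 * (3 ^ (d * n) * C1 ^ (d * n) * (ρ ^ (d * n) * l ^ (d * n))) := by
              refine Nat.mul_le_mul_left _ (Nat.mul_le_mul_right _ (Nat.mul_le_mul_left _ ?_))
              exact Nat.le_self_pow hdn.ne' C1
          _ = C1 * ((3 * C1 * ρ * l) ^ n) ^ d := by
              rw [← pow_mul, mul_comm n d, mul_pow, mul_pow, mul_pow]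
              ring
      exact Nat.le_of_mul_le_mul_left h7 hC10
    exact le_of_pow_le_pow_left₀ (by omega) (Nat.zero_le _) h6
  · -- degree one
    have hd1 : P.natDegree = 1 := by omega
    rw [hd1, show max (1 - 1) 1 = 1 from rfl, pow_one, one_mul] at hρ
    refine hC2 Λ 1 (3 * C1 * ρ) (by rw [hidx]; exact hq0) one_pos (fun w _ hw0 => ?_) ?_ ?_
    · exact Nat.pos_of_ne_zero fun h => hw0 (sz2_eq_zero h)
    · exact Nat.mul_pos (by positivity) hρ1
    · rw [hidx, mul_one]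
      calc 3 ^ n * q ≤ 3 ^ n * ρ ^ n := Nat.mul_le_mul_left _ hρ
        _ = (3 * 1 * ρ) ^ n := by rw [mul_one, mul_pow]
        _ ≤ (3 * C1 * ρ) ^ n := Nat.pow_le_pow_left
            (Nat.mul_le_mul_right _ (Nat.mul_le_mul_left _ hC10)) n

end Pool.Agent.Helper47.CB
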