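import Pool.Agent.Helper4.CB.Defs
import Pool.Agent.Helper4.CB.CNT

/-!
# CB, piece EVT: points of a coset in a box which satisfy finitely many independent conditions
-/

set_option autoImplicit false

namespace Pool.Agent.Helper47.CB

open Finset Pool.Agent.Helper4.CB

variable {N : ℕ} {G : Type} [AddCommGroup G]

/-- the density of a property which is periodic modulo `M` -/
noncomputable def gd (M : AddSubgroup G) (E : G → Prop) : ℝ :=
  (Nat.card {c : G ⧸ M // ∃ g : G, (g : G ⧸ M) = c ∧ E g} : ℝ) / M.index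

theorem gd_nonneg (M : AddSubgroup G) (E : G → Prop) : 0 ≤ gd M E := by
  unfold gd
  positivity

/-- covering radius of a smaller subgroup -/
theorem rad_of_smul (e : (Fin N → ℤ) ≃+ G) {Λ0 Λ : AddSubgroup G} {ρ0 P : ℕ}
    (h0 : Rad e Λ0 ρ0) (hP : 0 < P) (h : ∀ g ∈ Λ0, P • g ∈ Λ) : Rad e Λ ((ρ0 + 1) * P) := by
  intro g
  set f := e.symm g with hf
  have hPz : (0 : ℤ) < P := by exact_mod_cast hP
  obtain ⟨l, hl, hl2⟩ := h0 (e (fun i => f i / P))
  refine ⟨P • l, h l hl, fun i => ?_⟩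
  have h1 := hl2 i
  rw [map_sub, map_nsmul, ← hf]
  rw [map_sub, AddEquiv.symm_apply_apply] at h1
  rw [Pi.sub_apply] at h1 ⊢
  rw [Pi.smul_apply, nsmul_eq_mul]
  have h2 : f i = P * (f i / P) + f i % P := (Int.mul_ediv_add_emod (f i) P).symm
  have h3 : 0 ≤ f i % P := Int.emod_nonneg _ hPz.ne'
  have h4 : f i % P < P := Int.emod_lt_of_pos _ hPz
  have h5 : f i - P * e.symm l i = P * (f i / P - e.symm l i) + f i % P := by
    linear_combination h2
  push_cast
  rw [h5]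
  rw [abs_le] at h1 ⊢
  constructor
  · nlinarith
  · nlinarith

section

variable {ι : Type} (T : Finset ι) (M : ι → AddSubgroup G) (Λ0 : AddSubgroup G)

/-- the joint subgroup -/
def jn : AddSubgroup G := Λ0 ⊓ ⨅ i ∈ T, M i

theorem mem_jn {g : G} : g ∈ jn T M Λ0 ↔ g ∈ Λ0 ∧ ∀ i ∈ T, g ∈ M i := by
  unfold jn
  rw [AddSubgroup.mem_inf]
  simp only [AddSubgroup.mem_iInf]

variable {T M Λ0}

/-- the classes of `G / jn` are the tuples of classes -/
theorem card_classes (hcrt : ∀ (x : G) (y : ι → G), ∃ g : G, g - x ∈ Λ0 ∧ ∀ i ∈ T, g - y i ∈ M i)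
    (E : ι → G → Prop) (hE : ∀ i ∈ T, ∀ g, ∀ m ∈ M i, E i g → E i (g + m)) (x0 : G) :
    Nat.card {c : G ⧸ jn T M Λ0 // ∃ g : G, (g : G ⧸ jn T M Λ0) = c ∧ g - x0 ∈ Λ0 ∧
      ∀ i ∈ T, E i g} =
      ∏ i ∈ T, Nat.card {c : G ⧸ M i // ∃ g : G, (g : G ⧸ M i) = c ∧ E i g} := by
  classical
  rw [← Finset.prod_attach T, ← Finset.univ_eq_attach T, ← Nat.card_pi]
  refine Nat.card_congr (Equiv.ofBijective
    (fun c => fun i : T => ⟨((Classical.choose c.2 : G) : G ⧸ M i.1),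
      ⟨Classical.choose c.2, rfl, (Classical.choose_spec c.2).2.2 i.1 i.2⟩⟩) ⟨?_, ?_⟩)
  · intro c d hcd
    have hc := Classical.choose_spec c.2
    have hd := Classical.choose_spec d.2
    apply Subtype.ext
    rw [← hc.1, ← hd.1, QuotientAddGroup.eq, mem_jn]
    refine ⟨?_, fun i hi => ?_⟩
    · have := Λ0.sub_mem hd.2.1 hc.2.1
      convert this using 1
      abel
    · have h1 := congrFun hcd ⟨i, hi⟩
      have h2 := congrArg Subtype.val h1
      simp only at h2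
      rwa [QuotientAddGroup.eq] at h2
  · intro f
    obtain ⟨g, hg, hg2⟩ := hcrt x0
      (fun i => if h : i ∈ T then Classical.choose (f ⟨i, h⟩).2 else 0)
    have hgE : ∀ (i : ι) (hi : i ∈ T), (g : G ⧸ M i) = (f ⟨i, hi⟩).1 ∧ E i g := by
      intro i hi
      have h1 := hg2 i hi
      rw [dif_pos hi] at h1
      have h2 := Classical.choose_spec (f ⟨i, hi⟩).2
      refine ⟨?_, ?_⟩
      · rw [← h2.1, QuotientAddGroup.eq]
        have := (M i).neg_mem h1
        convert this using 1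
        abel
      · have := hE i hi _ _ h1 h2.2
        rwa [add_sub_cancel] at this
    refine ⟨⟨(g : G ⧸ jn T M Λ0), g, rfl, hg, fun i hi => (hgE i hi).2⟩, ?_⟩
    funext i
    apply Subtype.ext
    simp only
    rw [← (hgE i.1 i.2).1]
    have h3 := Classical.choose_spec (⟨(g : G ⧸ jn T M Λ0), g, rfl, hg, fun i hi => (hgE i hi).2⟩ :
      {c : G ⧸ jn T M Λ0 // ∃ g : G, (g : G ⧸ jn T M Λ0) = c ∧ g - x0 ∈ Λ0 ∧ ∀ i ∈ T, E i g}).2
    have h4 := h3.1
    rw [QuotientAddGroup.eq, mem_jn] at h4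
    rw [QuotientAddGroup.eq]
    exact h4.2 i.1 i.2

/-- the index of the joint subgroup -/
theorem index_jn (hcrt : ∀ (x : G) (y : ι → G), ∃ g : G, g - x ∈ Λ0 ∧ ∀ i ∈ T, g - y i ∈ M i) :
    (jn T M Λ0).index = Λ0.index * ∏ i ∈ T, (M i).index := by
  classical
  let F : G →+ (G ⧸ Λ0) × (∀ i : T, G ⧸ M i.1) :=
    (QuotientAddGroup.mk' Λ0).prod (AddMonoidHom.pi fun i : T => QuotientAddGroup.mk' (M i.1))
  have hF : ∀ g, F g = ((g : G ⧸ Λ0), fun i : T => (g : G ⧸ M i.1)) := fun g => rfl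
  have hker : F.ker = jn T M Λ0 := by
    ext g
    rw [AddMonoidHom.mem_ker, hF, mem_jn, Prod.mk_eq_zero, QuotientAddGroup.eq_zero_iff]
    refine and_congr Iff.rfl ?_
    constructor
    · intro h i hi
      have := congrFun h ⟨i, hi⟩
      simpa [QuotientAddGroup.eq_zero_iff] using this
    · intro h
      funext i
      simpa [QuotientAddGroup.eq_zero_iff] using h i.1 i.2
  have hsur : Function.Surjective F := by
    rintro ⟨c, d⟩
    obtain ⟨x, rfl⟩ := QuotientAddGroup.mk_surjective c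
    choose y hy using fun i : T => QuotientAddGroup.mk_surjective (d i)
    obtain ⟨g, hg, hg2⟩ := hcrt x (fun i => if h : i ∈ T then y ⟨i, h⟩ else 0)
    refine ⟨g, ?_⟩
    rw [hF, Prod.mk.injEq]
    refine ⟨?_, ?_⟩
    · rw [QuotientAddGroup.eq]
      have := Λ0.neg_mem hg
      convert this using 1
      abel
    · funext i
      rw [← hy i, QuotientAddGroup.eq]
      have h1 := hg2 i.1 i.2
      rw [dif_pos i.2] at h1
      have := (M i.1).neg_mem h1
      convert this using 1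
      abel
  rw [← hker, AddSubgroup.index_ker, AddMonoidHom.range_eq_top.mpr hsur]
  rw [Nat.card_congr (AddSubgroup.topEquiv (G := (G ⧸ Λ0) × (∀ i : T, G ⧸ M i.1))).toEquiv,
    Nat.card_prod, Nat.card_pi, Finset.univ_eq_attach]
  exact congrArg (fun t => Nat.card (G ⧸ Λ0) * t) (Finset.prod_attach T (fun i => (M i).index))

open Classical in
/-- **EVT.** -/
theorem evt (e : (Fin N → ℤ) ≃+ G) (hq0 : Λ0.index ≠ 0) (hq : ∀ i ∈ T, (M i).index ≠ 0)
    (hcrt : ∀ (x : G) (y : ι → G), ∃ g : G, g - x ∈ Λ0 ∧ ∀ i ∈ T, g - y i ∈ M i)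
    (E : ι → G → Prop) (hE : ∀ i ∈ T, ∀ g, ∀ m ∈ M i, E i g → E i (g + m))
    (ρ X : ℕ) (hrad : Rad e (jn T M Λ0) ρ) (hX : 2 * ρ ≤ X) (hX0 : 0 < X)
    (τ x0 : G) :
    |(((bx e τ X).filter (fun g => g - x0 ∈ Λ0 ∧ ∀ i ∈ T, E i g)).card : ℝ) -
        (X : ℝ) ^ N / Λ0.index * ∏ i ∈ T, gd (M i) (E i)| ≤
      2 ^ N * (2 * ρ / X) *
        ((X : ℝ) ^ N / Λ0.index * ∏ i ∈ T, gd (M i) (E i)) := by
  set Λ := jn T M Λ0 with hΛ
  have hidx : Λ.index = Λ0.index * ∏ i ∈ T, (M i).index := index_jn hcrt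
  have hidx0 : Λ.index ≠ 0 := by
    rw [hidx]
    exact mul_ne_zero hq0 (Finset.prod_ne_zero_iff.mpr hq)
  have : Finite (G ⧸ Λ) := by
    have : Λ.FiniteIndex := ⟨hidx0⟩
    infer_instance
  have : Fintype (G ⧸ Λ) := Fintype.ofFinite _
  set D : Finset (G ⧸ Λ) := Finset.univ.filter (fun c => ∃ g : G, (g : G ⧸ Λ) = c ∧ g - x0 ∈ Λ0 ∧
      ∀ i ∈ T, E i g) with hD
  have hDcard : D.card = ∏ i ∈ T, Nat.card {c : G ⧸ M i // ∃ g : G, (g : G ⧸ M i) = c ∧ E i g} := by
    rw [← card_classes hcrt E hE x0, Nat.card_eq_fintype_card, Fintype.card_subtype]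
  -- the set is the disjoint union of the fibres
  have hmem : ∀ g : G, (g - x0 ∈ Λ0 ∧ ∀ i ∈ T, E i g) ↔ (g : G ⧸ Λ) ∈ D := by
    intro g
    rw [hD, mem_filter]
    constructor
    · intro h
      exact ⟨mem_univ _, g, rfl, h⟩
    · rintro ⟨-, g', hg', h1, h2⟩
      rw [QuotientAddGroup.eq, hΛ, mem_jn] at hg'
      refine ⟨?_, fun i hi => ?_⟩
      · have := Λ0.add_mem hg'.1 h1
        convert this using 1
        abel
      · have := hE i hi g' _ (hg'.2 i hi) (h2 i hi)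
        convert this using 1
        abel
  have hcard : ((bx e τ X).filter (fun g => g - x0 ∈ Λ0 ∧ ∀ i ∈ T, E i g)).card =
      ∑ c ∈ D, ((bx e τ X).filter (fun g : G => (g : G ⧸ Λ) = c)).card := by
    rw [Finset.card_eq_sum_card_fiberwise (f := fun g : G => (g : G ⧸ Λ)) (t := D)]
    · refine sum_congr rfl fun c hc => ?_
      congr 1
      ext g
      simp only [mem_filter]
      constructor
      · rintro ⟨⟨h1, -⟩, h2⟩
        exact ⟨h1, h2⟩
      · rintro ⟨h1, h2⟩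
        exact ⟨⟨h1, (hmem g).mpr (h2 ▸ hc)⟩, h2⟩
    · intro g hg
      have := (mem_filter.mp hg).2
      exact (hmem g).mp this
  have hfib : ∀ c ∈ D, |(((bx e τ X).filter (fun g : G => (g : G ⧸ Λ) = c)).card : ℝ) -
      (X : ℝ) ^ N / Λ.index| ≤
      2 ^ N * (2 * ρ / X) * ((X : ℝ) ^ N / Λ.index) := by
    intro c _
    obtain ⟨x1, rfl⟩ := QuotientAddGroup.mk_surjective c
    have h1 := count_coset' e Λ hidx0 _ X hrad hX hX0 τ x1
    have h2 : (bx e τ X).filter (fun g : G => (g : G ⧸ Λ) = (x1 : G ⧸ Λ)) =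
        (bx e τ X).filter (fun g => g - x1 ∈ Λ) := by
      refine filter_congr fun g _ => ?_
      rw [eq_comm, QuotientAddGroup.eq]
      have : -x1 + g = g - x1 := by abel
      rw [this]
    rw [h2]
    exact h1
  have hmain : (X : ℝ) ^ N / Λ0.index * ∏ i ∈ T, gd (M i) (E i) =
      D.card * ((X : ℝ) ^ N / Λ.index) := by
    rw [hDcard, hidx]
    unfold gd
    rw [Finset.prod_div_distrib]
    push_cast
    ring
  rw [hmain, hcard]
  push_cast
  calc |∑ c ∈ D, (((bx e τ X).filter (fun g : G => (g : G ⧸ Λ) = c)).card : ℝ) -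
        D.card * ((X : ℝ) ^ N / Λ.index)|
      = |∑ c ∈ D, ((((bx e τ X).filter (fun g : G => (g : G ⧸ Λ) = c)).card : ℝ) -
        (X : ℝ) ^ N / Λ.index)| := by
        rw [sum_sub_distrib, sum_const, nsmul_eq_mul]
    _ ≤ ∑ c ∈ D, |(((bx e τ X).filter (fun g : G => (g : G ⧸ Λ) = c)).card : ℝ) -
        (X : ℝ) ^ N / Λ.index| := abs_sum_le_sum_abs _ _
    _ ≤ ∑ _c ∈ D, 2 ^ N * (2 * ρ / X) *
        ((X : ℝ) ^ N / Λ.index) := sum_le_sum hfib
    _ = _ := by
        rw [sum_const, nsmul_eq_mul]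
        push_cast
        ring

end

end Pool.Agent.Helper47.CB
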