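import Pool.Agent.Helper69.CB.CountB
import Pool.Agent.Helper79.CB.Core
import Pool.Agent.Helper79.CB.Gcd

/-!
# CB, degree 3, pieces of `core3`: direct part and window part
-/

set_option autoImplicit false

namespace Pool.Agent.Helper47.CB

open Finset Pool.Agent.Helper4.CB Pool.Agent.Helper23.CB Pool.Agent.Helper69.CB

theorem Rad_mono {N : ℕ} {G : Type} [AddCommGroup G] {e : (Fin N → ℤ) ≃+ G}
    {Λ : AddSubgroup G} {ρ ρ' : ℕ} (h : Rad e Λ ρ) (hρ : ρ ≤ ρ') : Rad e Λ ρ' := by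
  intro g
  obtain ⟨l, hl, h1⟩ := h g
  exact ⟨l, hl, fun i => (h1 i).trans (by exact_mod_cast hρ)⟩

open Classical in
/-- the points with a bad prime whose lattice has small covering radius -/
theorem direct_part {n : ℕ} {G : Type} [AddCommGroup G] {S : Sys (2 * n) G} (F : Fac3 n S)
    (K zs : ℕ) (hs : SiftB S K zs) {Γ0 : AddSubgroup G} (hΓ0 : Γ0.index ≠ 0) {T : ℕ}
    (hT : zs ≤ T) (hT2 : 3 * Γ0.index ≤ T ^ 2) (E : ℕ) (hE : K + 2 ≤ 2 * E)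
    (hΓΛ : ∀ (b : F.B) (T' : Finset S.Q), (∀ q ∈ F.pf b, q ∉ T') →
      Γ0 ⊔ (F.Λ b ⊓ T'.inf S.Γ) = ⊤)
    (bad : Set S.Q) {z0 M : ℕ} (hz : T ≤ z0) (hV : 0 ≤ S.V T) (τ x0 : G) :
    (((bx S.e τ (T ^ (2 * E))).filter (fun g => g - x0 ∈ Γ0 ∧ (∀ q ∈ S.le z0, g ∉ S.E q) ∧
        ∃ q ∈ bad, z0 < S.nm q ∧ S.nm q ≤ M ∧ ∃ b ∈ F.P q,
          Rad S.e (F.Λ b) (T ^ (2 * E - (K + 2))) ∧ g ∈ F.Λ b)).card : ℝ) ≤
      5 / 4 * (((T ^ (2 * E) : ℕ) : ℝ) ^ (2 * n) / Γ0.index * S.V T) *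
        (3 * ∑ q ∈ (S.le M).filter (fun q => q ∈ bad ∧ z0 < S.nm q), (1 : ℝ) / S.nm q) := by
  set c0 : ℝ := 5 / 4 * (((T ^ (2 * E) : ℕ) : ℝ) ^ (2 * n) / Γ0.index * S.V T) with hc0
  have hc0p : 0 ≤ c0 := by positivity
  set Qs : Finset S.Q := (S.le M).filter (fun q => q ∈ bad ∧ z0 < S.nm q) with hQs
  set Bq : S.Q → Finset F.B := fun q =>
    (F.P q).filter (fun b => Rad S.e (F.Λ b) (T ^ (2 * E - (K + 2)))) with hBq
  set cell : F.B → Finset G := fun b => (bx S.e τ (T ^ (2 * E))).filter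
    (fun g => g - x0 ∈ Γ0 ∧ (∀ q ∈ S.le T, g ∉ S.E q) ∧ g ∈ F.Λ b) with hcell
  have hsub : (bx S.e τ (T ^ (2 * E))).filter (fun g => g - x0 ∈ Γ0 ∧
        (∀ q ∈ S.le z0, g ∉ S.E q) ∧ ∃ q ∈ bad, z0 < S.nm q ∧ S.nm q ≤ M ∧ ∃ b ∈ F.P q,
          Rad S.e (F.Λ b) (T ^ (2 * E - (K + 2))) ∧ g ∈ F.Λ b) ⊆
      Qs.biUnion (fun q => (Bq q).biUnion cell) := by
    intro g hg
    rw [Finset.mem_filter] at hg
    obtain ⟨hgb, hgΓ, hgE, q, hqb, hqz, hqM, b, hb, hr, hgΛ⟩ := hg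
    rw [Finset.mem_biUnion]
    refine ⟨q, ?_, ?_⟩
    · rw [hQs, Finset.mem_filter, S.mem_le]
      exact ⟨hqM, hqb, hqz⟩
    · rw [Finset.mem_biUnion]
      refine ⟨b, ?_, ?_⟩
      · rw [hBq, Finset.mem_filter]
        exact ⟨hb, hr⟩
      · rw [hcell, Finset.mem_filter]
        exact ⟨hgb, hgΓ, fun q' hq' => hgE q' (S.mem_le.mpr ((S.mem_le.mp hq').trans hz)), hgΛ⟩
  have hcard : ∀ q ∈ Qs, ∀ b ∈ Bq q, ((cell b).card : ℝ) ≤ c0 * (1 / S.nm q) := by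
    intro q hq b hb
    rw [hQs, Finset.mem_filter] at hq
    rw [hBq, Finset.mem_filter] at hb
    have h1 := countA F K zs hs hΓ0 hT hT2 E hE b (by
      intro q' hq'
      rw [F.P_pf q b hb.1, Finset.mem_singleton] at hq'
      rw [hq']
      omega) (hΓΛ b) hb.2 τ x0
    rw [F.P_bn q b hb.1] at h1
    exact h1
  calc (((bx S.e τ (T ^ (2 * E))).filter (fun g => g - x0 ∈ Γ0 ∧
        (∀ q ∈ S.le z0, g ∉ S.E q) ∧ ∃ q ∈ bad, z0 < S.nm q ∧ S.nm q ≤ M ∧ ∃ b ∈ F.P q,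
          Rad S.e (F.Λ b) (T ^ (2 * E - (K + 2))) ∧ g ∈ F.Λ b)).card : ℝ)
      ≤ ∑ q ∈ Qs, ∑ b ∈ Bq q, ((cell b).card : ℝ) := by
        have h1 := (Finset.card_le_card hsub).trans (Finset.card_biUnion_le)
        have h2 := h1.trans (Finset.sum_le_sum (fun q _ => Finset.card_biUnion_le))
        exact_mod_cast h2
    _ ≤ ∑ q ∈ Qs, c0 * (3 * (1 / (S.nm q : ℝ))) := by
        refine Finset.sum_le_sum (fun q hq => ?_)
        refine (Finset.sum_le_sum (hcard q hq)).trans ?_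
        rw [Finset.sum_const, nsmul_eq_mul]
        have h3 : ((Bq q).card : ℝ) ≤ 3 := by
          have h4 : (Bq q).card ≤ 3 := (Finset.card_filter_le _ _).trans (F.P_card q)
          exact_mod_cast h4
        have h5 : 0 ≤ c0 * (1 / (S.nm q : ℝ)) := by positivity
        calc ((Bq q).card : ℝ) * (c0 * (1 / (S.nm q : ℝ))) ≤ 3 * (c0 * (1 / (S.nm q : ℝ))) :=
              mul_le_mul_of_nonneg_right h3 h5
          _ = _ := by ring
    _ = _ := by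
        rw [← Finset.mul_sum, ← Finset.mul_sum]

open Classical in
/-- the points in the exceptional lattices of the window -/
theorem win_part {n : ℕ} {G : Type} [AddCommGroup G] {S : Sys (2 * n) G} (F : Fac3 n S)
    {E a c T : ℕ} (hW : ∀ (τ : G) (A : Finset F.B),
      (∀ b ∈ A, (∃ q, b ∈ F.P q) ∧ F.bn b ≤ T ^ (3 * n * E + a) ∧
        ¬ Rad S.e (F.Λ b) (T ^ (2 * E - c))) →
      ∑ b ∈ A, ((bx S.e τ (T ^ (2 * E))).filter (fun g => g ∈ F.Λ b)).card ≤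
        T ^ (3 * n * E + 2 * a + 4 * n * c + 2)) (τ : G) :
    ((bx S.e τ (T ^ (2 * E))).filter (fun g => ∃ q, S.nm q ≤ T ^ (3 * n * E + a) ∧
        ∃ b ∈ F.P q, ¬ Rad S.e (F.Λ b) (T ^ (2 * E - c)) ∧ g ∈ F.Λ b)).card ≤
      T ^ (3 * n * E + 2 * a + 4 * n * c + 2) := by
  set A : Finset F.B := ((S.le (T ^ (3 * n * E + a))).biUnion F.P).filter
    (fun b => ¬ Rad S.e (F.Λ b) (T ^ (2 * E - c))) with hA
  have h1 := hW τ A (by
    intro b hb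
    rw [hA, Finset.mem_filter, Finset.mem_biUnion] at hb
    obtain ⟨⟨q, hq, hbq⟩, hr⟩ := hb
    refine ⟨⟨q, hbq⟩, ?_, hr⟩
    rw [F.P_bn q b hbq]
    exact S.mem_le.mp hq)
  refine le_trans ?_ h1
  refine le_trans (Finset.card_le_card ?_) Finset.card_biUnion_le
  intro g hg
  rw [Finset.mem_filter] at hg
  obtain ⟨hgb, q, hq, b, hb, hr, hgΛ⟩ := hg
  rw [Finset.mem_biUnion]
  refine ⟨b, ?_, ?_⟩
  · rw [hA, Finset.mem_filter, Finset.mem_biUnion]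
    exact ⟨⟨q, S.mem_le.mpr hq, hb⟩, hr⟩
  · rw [Finset.mem_filter]
    exact ⟨hgb, hgΛ⟩

end Pool.Agent.Helper47.CB
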