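import Pool.Agent.Helper47.CB.Core3A

/-!
# CB, degree 3, pieces of `core3`: cofactor part and the contribution of one factor
-/

set_option autoImplicit false

namespace Pool.Agent.Helper47.CB

open Finset Pool.Agent.Helper4.CB Pool.Agent.Helper23.CB Pool.Agent.Helper69.CB

open Classical in
/-- the points with an admissible cofactor -/
theorem cof_part {n : ℕ} {G : Type} [AddCommGroup G] {S : Sys (2 * n) G} (F : Fac3 n S)
    (K zs : ℕ) (hs : SiftB S K zs) {Γ0 : AddSubgroup G} (hΓ0 : Γ0.index ≠ 0) {T : ℕ}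
    (hT : zs ≤ T) (hT2 : 3 * Γ0.index ≤ T ^ 2) (E : ℕ) (hE : K + 2 ≤ 2 * E)
    (hΓΛ : ∀ (b : F.B) (T' : Finset S.Q), (∀ q ∈ F.pf b, q ∉ T') →
      Γ0 ⊔ (F.Λ b ⊓ T'.inf S.Γ) = ⊤)
    (Adm : Set F.B) {Z k0 M : ℕ} (hZ : T ≤ Z) (hV : 0 ≤ S.V T) {ε : ℝ}
    (hAdm : ∀ A : Finset F.B, (∀ b ∈ A, b ∈ Adm ∧ F.bn b ≤ Z ^ k0 ∧ ∀ q ∈ F.pf b, Z < S.nm q) →
      ∑ b ∈ A, (1 : ℝ) / F.bn b ≤ ε)
    (hM1 : M ≤ Z ^ k0) (hM2 : M ^ 2 ≤ (T ^ (2 * E - (K + 2) - 1)) ^ (3 * n))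
    (hFC : F.C * T ^ (2 * E - (K + 2) - 1) ≤ T ^ (2 * E - (K + 2))) (hd : F.d = 3) (τ x0 : G) :
    (((bx S.e τ (T ^ (2 * E))).filter (fun g => g - x0 ∈ Γ0 ∧ (∀ q ∈ S.le Z, g ∉ S.E q) ∧
        ∃ b ∈ Adm, g ∈ F.Λ b ∧ (∀ q' ∈ F.pf b, g ∈ S.E q') ∧ F.bn b ≤ M)).card : ℝ) ≤
      5 / 4 * (((T ^ (2 * E) : ℕ) : ℝ) ^ (2 * n) / Γ0.index * S.V T) * ε := by
  set c0 : ℝ := 5 / 4 * (((T ^ (2 * E) : ℕ) : ℝ) ^ (2 * n) / Γ0.index * S.V T) with hc0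
  have hc0p : 0 ≤ c0 := by positivity
  set W : Finset G := (bx S.e τ (T ^ (2 * E))).filter (fun g => g - x0 ∈ Γ0 ∧
    (∀ q ∈ S.le Z, g ∉ S.E q) ∧
        ∃ b ∈ Adm, g ∈ F.Λ b ∧ (∀ q' ∈ F.pf b, g ∈ S.E q') ∧ F.bn b ≤ M) with hW
  have hch : ∀ g ∈ W, ∃ b : F.B, b ∈ Adm ∧ g ∈ F.Λ b ∧ (∀ q' ∈ F.pf b, g ∈ S.E q') ∧
      F.bn b ≤ M := by
    intro g hg
    rw [hW, Finset.mem_filter] at hg
    obtain ⟨_, _, _, b, hb, h1, h2, h3⟩ := hg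
    exact ⟨b, hb, h1, h2, h3⟩
  choose f hf using hch
  set A : Finset F.B := W.attach.image (fun g => f g.1 g.2) with hA
  set cell : F.B → Finset G := fun b => (bx S.e τ (T ^ (2 * E))).filter
    (fun g => g - x0 ∈ Γ0 ∧ (∀ q ∈ S.le T, g ∉ S.E q) ∧ g ∈ F.Λ b) with hcell
  have hAb : ∀ b ∈ A, b ∈ Adm ∧ F.bn b ≤ M ∧ ∀ q ∈ F.pf b, Z < S.nm q := by
    intro b hb
    rw [hA, Finset.mem_image] at hb
    obtain ⟨⟨g, hgW⟩, _, rfl⟩ := hb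
    obtain ⟨h1, h2, h3, h4⟩ := hf g hgW
    refine ⟨h1, h4, fun q hq => ?_⟩
    by_contra hc
    exact (Finset.mem_filter.mp hgW).2.2.1 q (S.mem_le.mpr (not_lt.mp hc)) (h3 q hq)
  have hsub : W ⊆ A.biUnion cell := by
    intro g hg
    rw [Finset.mem_biUnion]
    refine ⟨f g hg, ?_, ?_⟩
    · rw [hA, Finset.mem_image]
      exact ⟨⟨g, hg⟩, Finset.mem_attach _ _, rfl⟩
    · have h5 := Finset.mem_filter.mp hg
      rw [hcell, Finset.mem_filter]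
      exact ⟨h5.1, h5.2.1, fun q' hq' => h5.2.2.1 q' (S.mem_le.mpr ((S.mem_le.mp hq').trans hZ)),
        (hf g hg).2.1⟩
  have hcard : ∀ b ∈ A, ((cell b).card : ℝ) ≤ c0 * (1 / F.bn b) := by
    intro b hb
    obtain ⟨h1, h2, h3⟩ := hAb b hb
    refine countA F K zs hs hΓ0 hT hT2 E hE b (fun q hq => lt_of_le_of_lt hZ (h3 q hq)) (hΓΛ b)
      ?_ τ x0
    refine Rad_mono (F.rad b (T ^ (2 * E - (K + 2) - 1)) ?_) hFC
    rw [hd]
    exact (Nat.pow_le_pow_left h2 2).trans hM2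
  calc ((W.card : ℕ) : ℝ) ≤ ∑ b ∈ A, ((cell b).card : ℝ) := by
        exact_mod_cast (Finset.card_le_card hsub).trans Finset.card_biUnion_le
    _ ≤ ∑ b ∈ A, c0 * (1 / F.bn b) := Finset.sum_le_sum hcard
    _ = c0 * ∑ b ∈ A, (1 : ℝ) / F.bn b := by rw [Finset.mul_sum]
    _ ≤ c0 * ε := by
        refine mul_le_mul_of_nonneg_left (hAdm A (fun b hb => ?_)) hc0p
        obtain ⟨h1, h2, h3⟩ := hAb b hb
        exact ⟨h1, h2.trans hM1, h3⟩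

open Classical in
/-- the points with a bad prime of one factor -/
theorem one_factor {n : ℕ} (hn : 1 ≤ n) {G : Type} [AddCommGroup G] {S : Sys (2 * n) G}
    (F : Fac3 n S) (K zs : ℕ) (hs : SiftB S K zs) {Γ0 : AddSubgroup G} (hΓ0 : Γ0.index ≠ 0)
    {T : ℕ} (hT : zs ≤ T) (hT1 : 2 ≤ T) (hT2 : 3 * Γ0.index ≤ T ^ 2) {E c a A0 : ℕ}
    (hc : c = K + 2) (ha : a = 3 * n * (c + 1)) (hA : A0 = a + 1) (hE4 : c + 1 ≤ E)
    (hE5 : a ≤ E)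
    (hΓΛ : ∀ (b : F.B) (T' : Finset S.Q), (∀ q ∈ F.pf b, q ∉ T') →
      Γ0 ⊔ (F.Λ b ⊓ T'.inf S.Γ) = ⊤)
    (bad : Set S.Q) (Adm : Set F.B) {C : ℕ}
    (h3 : F.C * T ^ (2 * E - c - 1) ≤ T ^ (2 * E - c))
    (h6 : C * T ^ (2 * n * (c + 1)) ≤ T ^ A0)
    (h7 : (C * T ^ (3 * n * E - a)) ^ 2 ≤ (T ^ (2 * E - c - 1)) ^ (3 * n))
    (h8 : C * T ^ (3 * n * E - a) ≤ (T ^ A0) ^ (3 * n * E + 1))
    (hV : 0 ≤ S.V T) {ε : ℝ} (hε : 0 ≤ ε)
    (hW : F.d = 3 → ∀ (τ : G) (A : Finset F.B),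
      (∀ b ∈ A, (∃ q, b ∈ F.P q) ∧ F.bn b ≤ T ^ (3 * n * E + a) ∧
        ¬ Rad S.e (F.Λ b) (T ^ (2 * E - c))) →
      ∑ b ∈ A, ((bx S.e τ (T ^ (2 * E))).filter (fun g => g ∈ F.Λ b)).card ≤
        T ^ (3 * n * E + 2 * a + 4 * n * c + 2))
    (hAd : F.d = 3 → ∀ A : Finset F.B, (∀ b ∈ A, b ∈ Adm ∧
      F.bn b ≤ (T ^ A0) ^ (3 * n * E + 1) ∧ ∀ q ∈ F.pf b, T ^ A0 < S.nm q) →
      ∑ b ∈ A, (1 : ℝ) / F.bn b ≤ ε)
    (τ x0 : G)
    (hcof : ∀ g ∈ bx S.e τ (T ^ (2 * E)), g - x0 ∈ Γ0 → (∀ q, g ∉ S.Γ q) →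
      ∀ q ∈ bad, ∀ p ∈ F.P q, g ∈ F.Λ p → ∃ b : F.B, b ∈ Adm ∧
        (F.pf b).Nonempty ∧ g ∈ F.Λ b ∧ (∀ q' ∈ F.pf b, g ∈ S.E q') ∧
        F.bn b * S.nm q ≤ C * (T ^ (2 * E)) ^ (F.d * n)) :
    (((bx S.e τ (T ^ (2 * E))).filter (fun g => g - x0 ∈ Γ0 ∧ (∀ q ∈ S.le (T ^ A0), g ∉ S.E q) ∧
        (∀ q, g ∉ S.Γ q) ∧ ∃ q ∈ bad, g ∈ S.E q ∧ ∃ b ∈ F.P q, g ∈ F.Λ b)).card : ℝ) ≤
      5 / 4 * (((T ^ (2 * E) : ℕ) : ℝ) ^ (2 * n) / Γ0.index * S.V T) *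
        (3 * ∑ q ∈ (S.le (T ^ (4 * n * E))).filter (fun q => q ∈ bad ∧ T ^ A0 < S.nm q),
          (1 : ℝ) / S.nm q) +
      ((T : ℝ) ^ (3 * n * E + 2 * a + 4 * n * c + 2) +
      5 / 4 * (((T ^ (2 * E) : ℕ) : ℝ) ^ (2 * n) / Γ0.index * S.V T) * ε) := by
  have hTp : 1 ≤ T := by omega
  have hTT : T ≤ T ^ A0 := Nat.le_self_pow (by omega) T
  have hKE : K + 2 ≤ 2 * E := by omega
  subst hc
  -- the three sets
  set Dir : Finset G := (bx S.e τ (T ^ (2 * E))).filter (fun g => g - x0 ∈ Γ0 ∧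
    (∀ q ∈ S.le (T ^ A0), g ∉ S.E q) ∧
        ∃ q ∈ bad, T ^ A0 < S.nm q ∧ S.nm q ≤ T ^ (4 * n * E) ∧ ∃ b ∈ F.P q,
          Rad S.e (F.Λ b) (T ^ (2 * E - (K + 2))) ∧ g ∈ F.Λ b) with hDir
  have hDirc := direct_part F K zs hs hΓ0 hT hT2 E hKE hΓΛ bad (M := T ^ (4 * n * E)) hTT hV τ x0
  rw [← hDir] at hDirc
  have hc0p : 0 ≤ 5 / 4 * (((T ^ (2 * E) : ℕ) : ℝ) ^ (2 * n) / Γ0.index * S.V T) := by
    positivity
  have hwp : (0 : ℝ) ≤ (T : ℝ) ^ (3 * n * E + 2 * a + 4 * n * (K + 2) + 2) := by positivity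
  by_cases hd : F.d = 3
  · -- degree three
    set Win : Finset G := (bx S.e τ (T ^ (2 * E))).filter (fun g => ∃ q,
        S.nm q ≤ T ^ (3 * n * E + a) ∧
        ∃ b ∈ F.P q, ¬ Rad S.e (F.Λ b) (T ^ (2 * E - (K + 2))) ∧ g ∈ F.Λ b) with hWin
    have hWinc := win_part F (hW hd) τ
    rw [← hWin] at hWinc
    have hWinr : ((Win.card : ℕ) : ℝ) ≤ (T : ℝ) ^ (3 * n * E + 2 * a + 4 * n * (K + 2) + 2) := by
      exact_mod_cast hWinc
    set Cof : Finset G := (bx S.e τ (T ^ (2 * E))).filter (fun g => g - x0 ∈ Γ0 ∧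
      (∀ q ∈ S.le (T ^ A0), g ∉ S.E q) ∧
        ∃ b ∈ Adm, g ∈ F.Λ b ∧ (∀ q' ∈ F.pf b, g ∈ S.E q') ∧
          F.bn b ≤ C * T ^ (3 * n * E - a)) with hCof
    have hCofc := cof_part F K zs hs hΓ0 hT hT2 E hKE hΓΛ Adm hTT hV (hAd hd) h8 h7 h3 hd τ x0
    rw [← hCof] at hCofc
    have hsub : (bx S.e τ (T ^ (2 * E))).filter (fun g => g - x0 ∈ Γ0 ∧
        (∀ q ∈ S.le (T ^ A0), g ∉ S.E q) ∧
        (∀ q, g ∉ S.Γ q) ∧ ∃ q ∈ bad, g ∈ S.E q ∧ ∃ b ∈ F.P q, g ∈ F.Λ b) ⊆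
        Dir ∪ (Win ∪ Cof) := by
      intro g hg
      rw [Finset.mem_filter] at hg
      obtain ⟨hgb, hgΓ, hgE, hgQ, q, hqb, hgq, b, hb, hgΛ⟩ := hg
      have hqz : T ^ A0 < S.nm q := by
        by_contra hcon
        exact hgE q (S.mem_le.mpr (not_lt.mp hcon)) hgq
      rw [Finset.mem_union, Finset.mem_union]
      by_cases hq : S.nm q ≤ T ^ (3 * n * E + a)
      · by_cases hr : Rad S.e (F.Λ b) (T ^ (2 * E - (K + 2)))
        · left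
          rw [hDir, Finset.mem_filter]
          refine ⟨hgb, hgΓ, hgE, q, hqb, hqz, hq.trans (Nat.pow_le_pow_right hTp ?_), b, hb, hr,
            hgΛ⟩
          have : E ≤ n * E := Nat.le_mul_of_pos_left _ hn
          have : 4 * n * E = 3 * n * E + n * E := by ring
          omega
        · right; left
          rw [hWin, Finset.mem_filter]
          exact ⟨hgb, q, hq, b, hb, hr, hgΛ⟩
      · right; right
        obtain ⟨b', hb1, hb2, hb3, hb4, hb5⟩ := hcof g hgb hgΓ hgQ q hqb b hb hgΛ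
        rw [hCof, Finset.mem_filter]
        refine ⟨hgb, hgΓ, hgE, b', hb1, hb3, hb4, ?_⟩
        rw [hd] at hb5
        have hq' : T ^ (3 * n * E + a) ≤ S.nm q := by omega
        have hp : 0 < T ^ (3 * n * E + a) := Nat.pow_pos (by omega)
        refine Nat.le_of_mul_le_mul_right ?_ hp
        calc F.bn b' * T ^ (3 * n * E + a) ≤ F.bn b' * S.nm q := Nat.mul_le_mul_left _ hq'
          _ ≤ C * (T ^ (2 * E)) ^ (3 * n) := hb5
          _ = C * T ^ (3 * n * E - a) * T ^ (3 * n * E + a) := by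
              rw [mul_assoc, ← pow_add, ← pow_mul]
              congr 2
              have h9 : a ≤ 3 * n * E := by
                calc a ≤ 1 * E := by omega
                  _ ≤ 3 * n * E := Nat.mul_le_mul_right _ (by omega)
              have h10 : 2 * E * (3 * n) = 3 * n * E + 3 * n * E := by ring
              omega
    have hcard := (Finset.card_le_card hsub).trans ((Finset.card_union_le _ _).trans
      (Nat.add_le_add_left (Finset.card_union_le _ _) _))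
    have hcardr : (((bx S.e τ (T ^ (2 * E))).filter (fun g => g - x0 ∈ Γ0 ∧
        (∀ q ∈ S.le (T ^ A0), g ∉ S.E q) ∧
        (∀ q, g ∉ S.Γ q) ∧ ∃ q ∈ bad, g ∈ S.E q ∧ ∃ b ∈ F.P q, g ∈ F.Λ b)).card : ℝ) ≤
        (Dir.card : ℝ) + ((Win.card : ℝ) + (Cof.card : ℝ)) := by exact_mod_cast hcard
    refine hcardr.trans ?_
    gcongr
  · -- degree at most two
    have hd1 := F.one_le
    have hd3 := F.le_three
    have hd2 : F.d ≤ 2 := by omega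
    have hsub : (bx S.e τ (T ^ (2 * E))).filter (fun g => g - x0 ∈ Γ0 ∧
        (∀ q ∈ S.le (T ^ A0), g ∉ S.E q) ∧
        (∀ q, g ∉ S.Γ q) ∧ ∃ q ∈ bad, g ∈ S.E q ∧ ∃ b ∈ F.P q, g ∈ F.Λ b) ⊆ Dir := by
      intro g hg
      rw [Finset.mem_filter] at hg
      obtain ⟨hgb, hgΓ, hgE, hgQ, q, hqb, hgq, b, hb, hgΛ⟩ := hg
      have hqz : T ^ A0 < S.nm q := by
        by_contra hcon
        exact hgE q (S.mem_le.mpr (not_lt.mp hcon)) hgq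
      by_cases hq : S.nm q ≤ T ^ (F.d * n * (2 * E - (K + 2) - 1))
      · rw [hDir, Finset.mem_filter]
        refine ⟨hgb, hgΓ, hgE, q, hqb, hqz, hq.trans (Nat.pow_le_pow_right hTp ?_), b, hb, ?_,
          hgΛ⟩
        · calc F.d * n * (2 * E - (K + 2) - 1) ≤ 2 * n * (2 * E) :=
                Nat.mul_le_mul (Nat.mul_le_mul_right _ hd2) (by omega)
            _ = 4 * n * E := by ring
        · refine Rad_mono (F.rad b (T ^ (2 * E - (K + 2) - 1)) ?_) h3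
          rw [F.P_bn q b hb]
          have e1 : max (F.d - 1) 1 = 1 := by omega
          rw [e1, pow_one, ← pow_mul]
          refine hq.trans (le_of_eq ?_)
          congr 1
          ring
      · exfalso
        obtain ⟨b', hb1, ⟨q', hq'⟩, hb3, hb4, hb5⟩ := hcof g hgb hgΓ hgQ q hqb b hb hgΛ
        have hq2 : T ^ (F.d * n * (2 * E - (K + 2) - 1)) ≤ S.nm q := by omega
        have hp : 0 < T ^ (F.d * n * (2 * E - (K + 2) - 1)) := Nat.pow_pos (by omega)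
        have h9 : F.bn b' ≤ C * T ^ (F.d * n * (K + 2 + 1)) := by
          refine Nat.le_of_mul_le_mul_right ?_ hp
          calc F.bn b' * T ^ (F.d * n * (2 * E - (K + 2) - 1)) ≤ F.bn b' * S.nm q :=
                Nat.mul_le_mul_left _ hq2
            _ ≤ C * (T ^ (2 * E)) ^ (F.d * n) := hb5
            _ = C * T ^ (F.d * n * (K + 2 + 1)) * T ^ (F.d * n * (2 * E - (K + 2) - 1)) := by
                rw [mul_assoc, ← pow_add, ← pow_mul, ← mul_add]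
                congr 2
                have h10 : K + 2 + 1 + (2 * E - (K + 2) - 1) = 2 * E := by omega
                rw [h10]
                ring
        have h10 : F.bn b' ≤ T ^ A0 := by
          refine h9.trans (le_trans (Nat.mul_le_mul_left _ (Nat.pow_le_pow_right hTp ?_)) h6)
          exact Nat.mul_le_mul_right _ (Nat.mul_le_mul_right _ hd2)
        exact hgE q' (S.mem_le.mpr ((F.nm_le b' q' hq').trans h10)) (hb4 q' hq')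
    have h11 : (((bx S.e τ (T ^ (2 * E))).filter (fun g => g - x0 ∈ Γ0 ∧
        (∀ q ∈ S.le (T ^ A0), g ∉ S.E q) ∧
        (∀ q, g ∉ S.Γ q) ∧ ∃ q ∈ bad, g ∈ S.E q ∧ ∃ b ∈ F.P q, g ∈ F.Λ b)).card : ℝ) ≤
        (Dir.card : ℝ) := by exact_mod_cast Finset.card_le_card hsub
    refine h11.trans (hDirc.trans ?_)
    have : 0 ≤ 5 / 4 * (((T ^ (2 * E) : ℕ) : ℝ) ^ (2 * n) / Γ0.index * S.V T) * ε :=
      mul_nonneg hc0p hε
    linarith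

end Pool.Agent.Helper47.CB
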