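import Pool.Agent.Helper23.CB.Inst3
import Pool.Agent.Helper23.CB.Fac3
import Pool.Agent.Helper25.CB.SysK

/-!
# CB, degree 3: the factor `P(u, m v)`, `P` of degree at most 3
-/

set_option autoImplicit false

namespace Pool.Agent.Helper47.CB

open NumberField Polynomial Finset Pool.Agent.Helper4.CB Pool.Agent.Helper25.CB
  Pool.Agent.Helper35.CB Pool.Agent.Helper23.CB

variable {K : Type} [Field K] [NumberField K]

/-- the pairs (ideal prime to `m`, root of `P` modulo the ideal) -/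
abbrev BP (K : Type) [Field K] [NumberField K] (m : ℕ) (P : (𝓞 K)[X]) : Type :=
  Σ I : Im K m, Rt P I.1

/-- the pair as an ideal and a representative of the root -/
noncomputable def toPair {m : ℕ} {P : (𝓞 K)[X]} (x : BP K m P) : Ideal (𝓞 K) × 𝓞 K :=
  (x.1.1, rep x.2)

theorem toPair_cond {m : ℕ} {P : (𝓞 K)[X]} {x y : BP K m P} (h1 : x.1.1 = y.1.1)
    (h2 : rep x.2 - rep y.2 ∈ x.1.1) : x = y := by
  obtain ⟨⟨I, hI⟩, t⟩ := x
  obtain ⟨⟨I', hI'⟩, t'⟩ := y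
  have h3 : I = I' := h1
  subst h3
  have h4 : t.1 = t'.1 := by
    rw [← mk_rep t, ← mk_rep t', Ideal.Quotient.eq]
    exact h2
  have h5 : t = t' := Subtype.ext h4
  subst h5
  rfl

theorem toPair_injective {m : ℕ} {P : (𝓞 K)[X]} :
    Function.Injective (toPair (K := K) (m := m) (P := P)) := by
  intro x y h
  have h1 : x.1.1 = y.1.1 := congrArg Prod.fst h
  have h2 : rep x.2 = rep y.2 := congrArg Prod.snd h
  refine toPair_cond h1 ?_
  rw [h2, sub_self]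
  exact x.1.1.zero_mem

/-- the pairs over a place -/
theorem finite_over {m : ℕ} {P : (𝓞 K)[X]} (hP : P.Monic) (h3 : P.natDegree ≤ 3)
    (hdisc : ∀ q : Ideal (𝓞 K), (m : 𝓞 K) ∉ q → ∀ t, P.eval t ∈ q → P.derivative.eval t ∉ q)
    (q : Pm K m) : {x : BP K m P | x.1 = ofPm q}.Finite ∧
      {x : BP K m P | x.1 = ofPm q}.ncard ≤ 3 := by
  obtain ⟨hfin, hcard⟩ := card_Rt_le P hP h3 hdisc (ofPm q)
  rw [pf_ofPm, card_singleton, pow_one] at hcard
  have hsub : {x : BP K m P | x.1 = ofPm q} ⊆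
      Set.range (fun t : Rt P (ofPm q).1 => (⟨ofPm q, t⟩ : BP K m P)) := by
    rintro ⟨I, t⟩ hx
    have hx' : I = ofPm q := hx
    subst hx'
    exact ⟨t, rfl⟩
  refine ⟨(Set.finite_range _).subset hsub, ?_⟩
  refine (Set.ncard_le_ncard hsub (Set.finite_range _)).trans ?_
  rw [← Set.image_univ]
  refine (Set.ncard_image_le Set.finite_univ).trans ?_
  rw [Set.ncard_univ]
  exact hcard

omit [NumberField K] in
theorem gam_le_Lam (I : Ideal (𝓞 K)) (s : 𝓞 K) : gam I ≤ (Lam I s).toAddSubgroup := by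
  intro x hx
  rw [mem_gam] at hx
  rw [Submodule.mem_toAddSubgroup, mem_Lam]
  exact I.sub_mem hx.1 (I.mul_mem_left _ hx.2)

/-- the factor `P(u, m v)` -/
noncomputable def facP3 (S : Finset (𝓞 K)[X]) (hS : ∀ P ∈ S, P.Monic) (m D : ℕ)
    (hD : ∑ P ∈ S, P.natDegree + 1 ≤ D) (hm : m ≠ 0) (P : (𝓞 K)[X]) (hP : P.Monic)
    (h1 : 1 ≤ P.natDegree) (h3 : P.natDegree ≤ 3)
    (hirr : Irreducible (P.map (algebraMap (𝓞 K) K)))
    (hdisc : ∀ q : Ideal (𝓞 K), (m : 𝓞 K) ∉ q → ∀ t, P.eval t ∈ q → P.derivative.eval t ∉ q) :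
    Fac3 (Module.finrank ℚ K) (sysK S hS m D hD) where
  d := P.natDegree
  one_le := h1
  le_three := h3
  B := BP K m P
  bn := fun x => Ideal.absNorm x.1.1
  pf := fun x => pf x.1
  Λ := fun x => (Lam x.1.1 (rep x.2 * m)).toAddSubgroup
  bn_pos := fun x => by
    rw [Ne, Ideal.absNorm_eq_zero_iff]
    exact x.1.2.1
  index := fun x => by
    rw [Lam_index, Ideal.absNorm_apply, Submodule.cardQuot_apply]
  nm_le := fun x _ hq => nm_le_absNorm x.1 hq
  sup := fun x T hT => by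
    rw [eq_top_iff, ← sup_pf x.1 T hT]
    exact sup_le_sup_right (gam_le_Lam _ _) _
  P := fun q => (finite_over hP h3 hdisc q).1.toFinset
  P_card := fun q => by
    rw [← Set.ncard_eq_toFinset_card _ (finite_over hP h3 hdisc q).1]
    exact (finite_over hP h3 hdisc q).2
  P_bn := fun q x hx => by
    rw [Set.Finite.mem_toFinset] at hx
    have hx' : x.1 = ofPm q := hx
    rw [hx']
    rfl
  P_pf := fun q x hx => by
    rw [Set.Finite.mem_toFinset] at hx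
    have hx' : x.1 = ofPm q := hx
    rw [hx']
    exact pf_ofPm q
  C := (rad_Lam K Module.finrank_pos (bas1 K) (eK K) P hP h1 h3 hirr m hm).choose
  rad := fun x ρ hρ =>
    (rad_Lam K Module.finrank_pos (bas1 K) (eK K) P hP h1 h3 hirr m hm).choose_spec x.1.1
      (rep x.2) x.1.2.1 (eval_rep x.2) ρ hρ

section

variable {S : Finset (𝓞 K)[X]} {hS : ∀ P ∈ S, P.Monic} {m D : ℕ}
  {hD : ∑ P ∈ S, P.natDegree + 1 ≤ D} {hm : m ≠ 0} {P : (𝓞 K)[X]} {hP : P.Monic}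
  {h1 : 1 ≤ P.natDegree} {h3 : P.natDegree ≤ 3}
  {hirr : Irreducible (P.map (algebraMap (𝓞 K) K))}
  {hdisc : ∀ q : Ideal (𝓞 K), (m : 𝓞 K) ∉ q → ∀ t, P.eval t ∈ q → P.derivative.eval t ∉ q}

theorem mem_P (q : Pm K m) (x : BP K m P) :
    x ∈ (facP3 S hS m D hD hm P hP h1 h3 hirr hdisc).P q ↔ x.1 = ofPm q := by
  have h : x ∈ (finite_over hP h3 hdisc q).1.toFinset ↔ x.1 = ofPm q := by
    rw [Set.Finite.mem_toFinset]
    exact Iff.rfl
  exact h

theorem mem_Lam3 (x : BP K m P) (g : 𝓞 K × 𝓞 K) :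
    g ∈ (facP3 S hS m D hD hm P hP h1 h3 hirr hdisc).Λ x ↔ g ∈ Lam x.1.1 (rep x.2 * m) := Iff.rfl

/-- **WIN** for the factor `P(u, m v)` -/
theorem facP3_win (hd : P.natDegree = 3) :
    (facP3 S hS m D hD hm P hP h1 h3 hirr hdisc).Win := by
  classical
  intro E a c hE
  obtain ⟨T0, hT0⟩ := win_Lam K (n := Module.finrank ℚ K) Module.finrank_pos (bas1 K) (eK K) P hP
    hd hirr m hm E a c hE
  refine ⟨T0, fun T hT τ A hA => ?_⟩
  have hA' : ∀ x ∈ A, (∃ q : Pm K m, x.1 = ofPm q) ∧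
      Ideal.absNorm x.1.1 ≤ T ^ (3 * Module.finrank ℚ K * E + a) ∧
      ¬ Rad (eK K) (Lam x.1.1 (rep x.2 * m)).toAddSubgroup (T ^ (2 * E - c)) := by
    intro x hx
    obtain ⟨⟨q, hq⟩, h4, h5⟩ := hA x hx
    exact ⟨⟨q, (mem_P q x).mp hq⟩, h4, h5⟩
  let A' : Finset (Ideal (𝓞 K) × 𝓞 K) :=
    (show Finset (BP K m P) from A).map ⟨toPair, toPair_injective⟩
  have h4 := hT0 T hT τ A' (by
    intro y hy
    obtain ⟨x, hx, rfl⟩ := mem_map.mp hy
    obtain ⟨⟨q, hq⟩, h6, h7⟩ := hA' x hx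
    refine ⟨?_, x.1.2.1, eval_rep x.2, h6, h7⟩
    show x.1.1.IsPrime
    rw [hq]
    exact q.1.isPrime) (by
    intro y hy z hz h5 h6
    obtain ⟨x, hx, rfl⟩ := mem_map.mp hy
    obtain ⟨x', hx', rfl⟩ := mem_map.mp hz
    exact congrArg toPair (toPair_cond h5 h6))
  rw [sum_map] at h4
  refine le_trans (le_of_eq ?_) h4
  refine sum_congr rfl fun x _ => ?_
  congr 1

end

end Pool.Agent.Helper47.CB
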