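import Pool.Agent.Helper25.CB.Rad

/-!
# CB, degree 3: packing (L1) and covering radius (L2) of `R`-stable lattices in `R × R`
-/

set_option autoImplicit false

namespace Pool.Agent.Helper47.CB

open Finset Pool.Agent.Helper4.CB

section Size

variable {N : ℕ} {G : Type} [AddCommGroup G]

/-- the sup norm of the coordinates -/
noncomputable def sz (e : (Fin N → ℤ) ≃+ G) (g : G) : ℕ :=
  Finset.univ.sup fun i => (e.symm g i).natAbs

variable (e : (Fin N → ℤ) ≃+ G)

theorem sz_le {g : G} {B : ℕ} : sz e g ≤ B ↔ ∀ i, |e.symm g i| ≤ B := by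
  unfold sz
  rw [Finset.sup_le_iff]
  constructor
  · intro h i
    have h1 := h i (mem_univ i)
    rw [← Int.natCast_natAbs]
    exact_mod_cast h1
  · intro h i _
    have h1 := h i
    rw [← Int.natCast_natAbs] at h1
    exact_mod_cast h1

theorem abs_le_sz (g : G) (i : Fin N) : |e.symm g i| ≤ sz e g := (sz_le e).mp le_rfl i

theorem sz_eq_zero {g : G} : sz e g = 0 ↔ g = 0 := by
  constructor
  · intro h
    have h1 := (sz_le e).mp h.le
    have h2 : e.symm g = 0 := by
      funext i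
      have := h1 i
      simpa using this
    rwa [AddEquiv.map_eq_zero_iff] at h2
  · rintro rfl
    have : sz e (0 : G) ≤ 0 := (sz_le e).mpr (fun i => by simp)
    omega

theorem sz_nsmul (k : ℕ) (g : G) : sz e (k • g) = k * sz e g := by
  apply le_antisymm
  · rw [sz_le]
    intro i
    rw [map_nsmul, Pi.smul_apply, nsmul_eq_mul, abs_mul, Nat.abs_cast]
    push_cast
    exact mul_le_mul_of_nonneg_left (abs_le_sz e g i) (by positivity)
  · rcases Nat.eq_zero_or_pos k with rfl | hk
    · simp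
    · rw [mul_comm, ← Nat.le_div_iff_mul_le hk, sz_le]
      intro i
      have h1 := abs_le_sz e (k • g) i
      rw [map_nsmul, Pi.smul_apply, nsmul_eq_mul, abs_mul, Nat.abs_cast] at h1
      have h2 : (|e.symm g i|.toNat : ℤ) = |e.symm g i| := Int.toNat_of_nonneg (abs_nonneg _)
      rw [← h2] at h1 ⊢
      have h3 : k * |e.symm g i|.toNat ≤ sz e (k • g) := by exact_mod_cast h1
      exact_mod_cast (Nat.le_div_iff_mul_le hk).mpr (by rwa [mul_comm])

end Size

/-- **L1.** packing -/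
theorem packing {M : Type} [AddCommGroup M] [Module.Free ℤ M] [Module.Finite ℤ M] {n k : ℕ}
    (hn : Module.finrank ℤ M ≤ n) (hk : 0 < k) (S : Finset M)
    (h : ∀ x ∈ S, ∀ y ∈ S, ∀ z : M, x - y = k • z → z = 0) : S.card ≤ k ^ n := by
  classical
  have : NeZero k := ⟨hk.ne'⟩
  let b := Module.finBasis ℤ M
  have hinj : Set.InjOn (fun x : M => fun i : Fin (Module.finrank ℤ M) => ((b.repr x i : ℤ) : ZMod k)) S := by
    intro x hx y hy hxy
    have h1 : ∀ i, (k : ℤ) ∣ b.repr x i - b.repr y i := by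
      intro i
      have h2 := congrFun hxy i
      simp only at h2
      rw [← sub_eq_zero, ← Int.cast_sub, ZMod.intCast_zmod_eq_zero_iff_dvd] at h2
      exact h2
    have h3 : x - y = k • b.equivFun.symm (fun i => (b.repr x i - b.repr y i) / (k : ℤ)) := by
      apply b.equivFun.injective
      rw [map_nsmul, LinearEquiv.apply_symm_apply]
      funext i
      rw [Module.Basis.equivFun_apply, map_sub, Finsupp.sub_apply, Pi.smul_apply, nsmul_eq_mul]
      exact (Int.mul_ediv_cancel' (h1 i)).symm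
    have h4 := h x hx y hy _ h3
    rw [h4, smul_zero] at h3
    exact sub_eq_zero.mp h3
  have h5 := Finset.card_le_card_of_injOn
    (t := (Finset.univ : Finset (Fin (Module.finrank ℤ M) → ZMod k))) _
    (fun _ _ => by simp) hinj
  refine h5.trans ?_
  rw [Finset.card_univ, Fintype.card_fun, ZMod.card, Fintype.card_fin]
  exact Nat.pow_le_pow_right hk hn

section Ring

variable {n : ℕ} {R : Type} [CommRing R] [IsDomain R]

/-- the determinant -/
def det2 (w z : R × R) : R := w.1 * z.2 - w.2 * z.1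

/-- points of a line -/
theorem packing_line (b : Module.Basis (Fin n) ℤ R) {N : ℕ} (e : (Fin N → ℤ) ≃+ R × R)
    (Λ : AddSubgroup (R × R)) {lam B : ℕ} (hlam0 : 0 < lam)
    (hlam : ∀ w ∈ Λ, w ≠ 0 → lam ≤ sz e w) {w1 : R × R} (hw1 : w1 ≠ 0) (S : Finset (R × R))
    (hS : ∀ w ∈ S, w ∈ Λ) (hS1 : ∀ w ∈ S, det2 w1 w = 0)
    (hS2 : ∀ x ∈ S, ∀ y ∈ S, sz e (x - y) ≤ B) : S.card ≤ (B / lam + 1) ^ n := by
  classical
  let H : Submodule ℤ (R × R) :=
    { carrier := {w | w ∈ Λ ∧ det2 w1 w = 0}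
      add_mem' := by
        rintro x y ⟨hx, hx'⟩ ⟨hy, hy'⟩
        refine ⟨Λ.add_mem hx hy, ?_⟩
        unfold det2 at *
        rw [Prod.fst_add, Prod.snd_add]
        linear_combination hx' + hy'
      zero_mem' := ⟨Λ.zero_mem, by simp [det2]⟩
      smul_mem' := by
        rintro c x ⟨hx, hx'⟩
        refine ⟨Λ.zsmul_mem hx c, ?_⟩
        unfold det2 at *
        rw [Prod.smul_fst, Prod.smul_snd, zsmul_eq_mul, zsmul_eq_mul]
        linear_combination (c : R) * hx' }
  have hmem : ∀ w, w ∈ H ↔ w ∈ Λ ∧ det2 w1 w = 0 := fun w => Iff.rfl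
  have : Module.Free ℤ R := Module.Free.of_basis b
  have : Module.Finite ℤ R := Module.Finite.of_basis b
  have hrank : Module.finrank ℤ H ≤ n := by
    have hR : Module.finrank ℤ R = n := by
      rw [Module.finrank_eq_card_basis b, Fintype.card_fin]
    rw [← hR]
    by_cases h0 : w1.1 = 0
    · have h1 : w1.2 ≠ 0 := fun h => hw1 (Prod.ext h0 h)
      refine LinearMap.finrank_le_finrank_of_injective
        (f := (LinearMap.snd ℤ R R).comp H.subtype) ?_
      rw [injective_iff_map_eq_zero]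
      rintro ⟨x, hx⟩ hx0
      have h2 : x.2 = 0 := hx0
      have h3 := ((hmem x).mp hx).2
      unfold det2 at h3
      rw [h0, zero_mul, zero_sub, neg_eq_zero, mul_eq_zero] at h3
      have h4 : x.1 = 0 := h3.resolve_left h1
      exact Subtype.ext (Prod.ext h4 h2)
    · refine LinearMap.finrank_le_finrank_of_injective
        (f := (LinearMap.fst ℤ R R).comp H.subtype) ?_
      rw [injective_iff_map_eq_zero]
      rintro ⟨x, hx⟩ hx0
      have h2 : x.1 = 0 := hx0
      have h3 := ((hmem x).mp hx).2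
      unfold det2 at h3
      rw [h2, mul_zero, sub_zero, mul_eq_zero] at h3
      have h4 : x.2 = 0 := h3.resolve_left h0
      exact Subtype.ext (Prod.ext h2 h4)
  have h1 := packing (M := H) hrank (Nat.succ_pos (B / lam)) (S.subtype (fun w => w ∈ H)) ?_
  · refine le_trans (le_of_eq ?_) h1
    rw [Finset.card_subtype]
    congr 1
    exact (Finset.filter_true_of_mem fun w hw => (hmem w).mpr ⟨hS w hw, hS1 w hw⟩).symm
  · rintro ⟨x, hx⟩ hxS ⟨y, hy⟩ hyS ⟨z, hz⟩ hxyz
    rw [Finset.mem_subtype] at hxS hyS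
    have h2 : x - y = (B / lam).succ • z := congrArg Subtype.val hxyz
    by_contra hz0
    have hz1 : z ≠ 0 := fun h => hz0 (Subtype.ext h)
    have h3 := hS2 x hxS y hyS
    rw [h2, sz_nsmul] at h3
    have h4 := hlam z ((hmem z).mp hz).1 hz1
    have h5 : B < (B / lam).succ * lam := by
      rw [Nat.succ_mul]
      exact Nat.lt_div_mul_add hlam0
    have h6 : (B / lam).succ * lam ≤ (B / lam).succ * sz e z := Nat.mul_le_mul_left _ h4
    omega

omit [IsDomain R] in
/-- coordinates of a multiple -/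
theorem coord_smul (b : Module.Basis (Fin n) ℤ R) {N : ℕ} (e : (Fin N → ℤ) ≃+ R × R) :
    ∃ C : ℕ, ∀ (t : R) (w : R × R) (A B : ℕ), (∀ i, |b.repr t i| ≤ A) → sz e w ≤ B →
      ∀ j, |e.symm (t • w) j| ≤ C * (A * B : ℕ) := by
  classical
  refine ⟨∑ p : Fin n × Fin N × Fin N, (e.symm (b p.1 • e (Pi.single p.2.1 1)) p.2.2).natAbs, ?_⟩
  intro t w A B ht hw i
  rw [sz_le] at hw
  have hw1 : w = ∑ k, (e.symm w k) • e (Pi.single k 1) := by
    apply e.symm.injective
    rw [map_sum]
    funext j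
    rw [Finset.sum_apply]
    simp only [map_zsmul, AddEquiv.symm_apply_apply, Pi.smul_apply, smul_eq_mul]
    rw [Finset.sum_eq_single j]
    · simp
    · intro k _ hk
      rw [Pi.single_eq_of_ne hk.symm, mul_zero]
    · intro h
      exact absurd (mem_univ j) h
  have h1 : t • w = ∑ j, ∑ k, (b.repr t j * e.symm w k) • (b j • e (Pi.single k 1)) := by
    conv_lhs => rw [← b.sum_repr t, hw1]
    rw [Finset.sum_smul]
    refine Finset.sum_congr rfl (fun j _ => ?_)
    rw [Finset.smul_sum]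
    refine Finset.sum_congr rfl (fun k _ => ?_)
    rw [smul_assoc, smul_comm (b j) (e.symm w k), smul_smul]
  rw [h1, map_sum, Finset.sum_apply]
  have h2 : ∀ j, e.symm (∑ k, (b.repr t j * e.symm w k) • (b j • e (Pi.single k 1))) i =
      ∑ k, (b.repr t j * e.symm w k) * e.symm (b j • e (Pi.single k 1)) i := by
    intro j
    rw [map_sum, Finset.sum_apply]
    refine Finset.sum_congr rfl (fun k _ => ?_)
    rw [map_zsmul, Pi.smul_apply, smul_eq_mul]
  rw [Finset.sum_congr rfl (fun j _ => h2 j)]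
  calc |∑ j, ∑ k, (b.repr t j * e.symm w k) * e.symm (b j • e (Pi.single k 1)) i| ≤
        ∑ j, ∑ k, |(b.repr t j * e.symm w k) * e.symm (b j • e (Pi.single k 1)) i| :=
        (Finset.abs_sum_le_sum_abs _ _).trans
          (Finset.sum_le_sum (fun j _ => Finset.abs_sum_le_sum_abs _ _))
    _ ≤ ∑ j : Fin n, ∑ k : Fin N, ((A : ℤ) * B) *
          ((e.symm (b j • e (Pi.single k 1)) i).natAbs : ℤ) := by
        refine Finset.sum_le_sum (fun j _ => Finset.sum_le_sum (fun k _ => ?_))
        rw [abs_mul, abs_mul, ← Int.natCast_natAbs (e.symm (b j • e (Pi.single k 1)) i)]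
        exact mul_le_mul_of_nonneg_right
          (mul_le_mul (ht j) (hw k) (abs_nonneg _) ((abs_nonneg _).trans (ht j)))
          (Int.natCast_nonneg _)
    _ ≤ ((A : ℤ) * B) * ((∑ p : Fin n × Fin N × Fin N,
          (e.symm (b p.1 • e (Pi.single p.2.1 1)) p.2.2).natAbs : ℕ) : ℤ) := by
        simp_rw [← Finset.mul_sum]
        refine mul_le_mul_of_nonneg_left ?_ (by positivity)
        push_cast
        rw [Fintype.sum_prod_type]
        refine Finset.sum_le_sum (fun j _ => ?_)
        rw [Fintype.sum_prod_type]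
        refine Finset.sum_le_sum (fun k _ => ?_)
        exact Finset.single_le_sum (f := fun i => |e.symm (b j • e (Pi.single k 1)) i|)
          (fun _ _ => abs_nonneg _) (Finset.mem_univ i)
    _ = _ := by
        push_cast
        ring

/-- two independent vectors bound the covering radius -/
theorem rad_of_two (b : Module.Basis (Fin n) ℤ R) {N : ℕ} (e : (Fin N → ℤ) ≃+ R × R) :
    ∃ C : ℕ, ∀ (Λ : AddSubgroup (R × R)), (∀ (a : R), ∀ w ∈ Λ, a • w ∈ Λ) →
      ∀ w1 ∈ Λ, ∀ w2 ∈ Λ, det2 w1 w2 ≠ 0 → ∀ B : ℕ, sz e w1 ≤ B → sz e w2 ≤ B →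
        Rad e Λ (C * B) := by
  classical
  obtain ⟨C, hC⟩ := coord_smul b e
  refine ⟨2 * C, fun Λ hΛ w1 hw1 w2 hw2 hdet B hB1 hB2 g => ?_⟩
  have : Module.Free ℤ R := Module.Free.of_basis b
  have : Module.Finite ℤ R := Module.Finite.of_basis b
  have : Finite (R ⧸ Ideal.span {det2 w1 w2}) :=
    Ideal.finiteQuotientOfFreeOfNeBot _ (fun h => hdet (Ideal.span_singleton_eq_bot.1 h))
  obtain ⟨m, hm⟩ : ∃ m : ℕ, m = Nat.card (R ⧸ Ideal.span {det2 w1 w2}) := ⟨_, rfl⟩
  have hm0 : 0 < m := by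
    rw [hm]
    exact Nat.card_pos
  have h1 : (m : R) ∈ Ideal.span {det2 w1 w2} := by
    have h2 : Ideal.Quotient.mk (Ideal.span {det2 w1 w2}) (m : R) = 0 := by
      rw [map_natCast, ← nsmul_one, hm]
      exact card_nsmul_eq_zero'
    exact Ideal.Quotient.eq_zero_iff_mem.mp h2
  obtain ⟨c, hc⟩ := Ideal.mem_span_singleton'.1 h1
  -- division with remainder
  have hdiv : ∀ a : R, ∃ t q : R, a = t + (m : R) * q ∧ ∀ i, |b.repr t i| ≤ (m : ℤ) := by
    intro a
    refine ⟨b.equivFun.symm (fun i => b.repr a i % (m : ℤ)),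
      b.equivFun.symm (fun i => b.repr a i / (m : ℤ)), ?_, ?_⟩
    · apply b.equivFun.injective
      have e2 : ∀ q : R, (m : R) * q = (m : ℤ) • q := by
        intro q
        rw [zsmul_eq_mul, Int.cast_natCast]
      rw [map_add, e2, map_smul, LinearEquiv.apply_symm_apply, LinearEquiv.apply_symm_apply]
      funext i
      rw [Module.Basis.equivFun_apply, Pi.add_apply, Pi.smul_apply, smul_eq_mul]
      exact (Int.emod_add_mul_ediv _ _).symm
    · intro i
      rw [← Module.Basis.equivFun_apply, LinearEquiv.apply_symm_apply,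
        abs_of_nonneg (Int.emod_nonneg _ (by omega))]
      exact (Int.emod_lt_of_pos _ (by omega)).le
  obtain ⟨t1, q1, h11, h12⟩ := hdiv (c * det2 g w2)
  obtain ⟨t2, q2, h21, h22⟩ := hdiv (c * det2 w1 g)
  refine ⟨q1 • w1 + q2 • w2, Λ.add_mem (hΛ _ _ hw1) (hΛ _ _ hw2), fun j => ?_⟩
  have h3 : m • (g - (q1 • w1 + q2 • w2)) = t1 • w1 + t2 • w2 := by
    have e1 : t1 = c * det2 g w2 - (m : R) * q1 := by rw [h11]; ring
    have e2 : t2 = c * det2 w1 g - (m : R) * q2 := by rw [h21]; ring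
    rw [e1, e2, ← hc]
    unfold det2
    apply Prod.ext
    · simp only [Prod.smul_fst, Prod.fst_sub, Prod.fst_add, Prod.fst_mul, Prod.fst_natCast,
        smul_eq_mul, nsmul_eq_mul]
      rw [← hc]
      unfold det2
      ring
    · simp only [Prod.smul_snd, Prod.snd_sub, Prod.snd_add, Prod.snd_mul, Prod.snd_natCast,
        smul_eq_mul, nsmul_eq_mul]
      rw [← hc]
      unfold det2
      ring
  have h4 := hC t1 w1 m B h12 hB1 j
  have h5 := hC t2 w2 m B h22 hB2 j
  have h6 : (m : ℤ) * |e.symm (g - (q1 • w1 + q2 • w2)) j| ≤ (m : ℤ) * (2 * C * B : ℕ) := by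
    have h7 : (m : ℤ) * |e.symm (g - (q1 • w1 + q2 • w2)) j| =
        |e.symm (t1 • w1 + t2 • w2) j| := by
      rw [← h3, map_nsmul, Pi.smul_apply, nsmul_eq_mul, abs_mul, Nat.abs_cast]
    rw [h7, map_add, Pi.add_apply]
    refine (abs_add_le _ _).trans ((add_le_add h4 h5).trans (le_of_eq ?_))
    push_cast
    ring
  exact le_of_mul_le_mul_left h6 (by omega)

/-- **L2.** covering radius from the shortest vector -/
theorem rad_of_min (b : Module.Basis (Fin n) ℤ R) (e : (Fin (2 * n) → ℤ) ≃+ R × R) :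
    ∃ C : ℕ, ∀ (Λ : AddSubgroup (R × R)), Λ.index ≠ 0 → (∀ (a : R), ∀ w ∈ Λ, a • w ∈ Λ) →
      ∀ lam B : ℕ, 0 < lam → lam ≤ B → (∀ w ∈ Λ, w ≠ 0 → lam ≤ sz e w) →
        2 ^ n * Λ.index ≤ (B * lam) ^ n → Rad e Λ (C * B) := by
  classical
  obtain ⟨C, hC⟩ := rad_of_two b e
  refine ⟨C, fun Λ hidx hΛ lam B hlam0 hlB hlam hB => ?_⟩
  set k := B / lam + 1 with hk
  have hkl : k * lam ≤ 2 * B := by
    rw [hk, add_mul, one_mul]
    have := Nat.div_mul_le_self B lam
    omega
  have hB0 : 0 < B := lt_of_lt_of_le hlam0 hlB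
  -- pigeonhole
  have hcard : Λ.index * k ^ n < (B + 1) ^ (2 * n) := by
    have h1 : Λ.index * k ^ n * (2 * lam) ^ n ≤ B ^ (2 * n) * (2 * lam) ^ n := by
      calc Λ.index * k ^ n * (2 * lam) ^ n = (2 ^ n * Λ.index) * (k * lam) ^ n := by
            rw [mul_pow, mul_pow]; ring
        _ ≤ (B * lam) ^ n * (2 * B) ^ n :=
            Nat.mul_le_mul hB (Nat.pow_le_pow_left hkl n)
        _ = B ^ (2 * n) * (2 * lam) ^ n := by
            rw [two_mul n, pow_add, mul_pow, mul_pow, mul_pow]; ring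
    have h2 : Λ.index * k ^ n ≤ B ^ (2 * n) :=
      Nat.le_of_mul_le_mul_right h1 (by positivity)
    rcases Nat.eq_zero_or_pos n with hn | hn
    · -- rank zero: there is only one point
      exfalso
      subst hn
      have hR : ∀ x : R, x = 0 := fun x => by
        rw [← b.sum_repr x]
        simp
      exact one_ne_zero (hR 1)
    · exact h2.trans_lt (Nat.pow_lt_pow_left (Nat.lt_succ_self B) (by omega))
  have hfi : Λ.FiniteIndex := ⟨hidx⟩
  have : Finite ((R × R) ⧸ Λ) := inferInstance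
  have : Fintype ((R × R) ⧸ Λ) := Fintype.ofFinite _
  let f : (Fin (2 * n) → Fin (B + 1)) → (R × R) ⧸ Λ :=
    fun x => ((e (fun i => ((x i : ℕ) : ℤ)) : R × R) : (R × R) ⧸ Λ)
  obtain ⟨y, -, hy⟩ := Finset.exists_lt_card_fiber_of_mul_lt_card_of_maps_to
    (s := (Finset.univ : Finset (Fin (2 * n) → Fin (B + 1))))
    (t := (Finset.univ : Finset ((R × R) ⧸ Λ))) (f := f) (n := k ^ n)
    (fun _ _ => mem_univ _) (by
      rw [Finset.card_univ, Finset.card_univ, Fintype.card_fun, Fintype.card_fin,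
        Fintype.card_fin, ← Nat.card_eq_fintype_card]
      exact hcard)
  set F := Finset.univ.filter (fun x => f x = y) with hF
  have hFpos : F.Nonempty := Finset.card_pos.mp (lt_of_le_of_lt (Nat.zero_le _) hy)
  obtain ⟨x0, hx0⟩ := hFpos
  let pt : (Fin (2 * n) → Fin (B + 1)) → R × R := fun x => e (fun i => ((x i : ℕ) : ℤ))
  have hptinj : Function.Injective pt := by
    intro x x' h
    have h1 := e.injective h
    funext i
    have h2 := congrFun h1 i
    exact Fin.ext (by exact_mod_cast h2)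
  have hdiff : ∀ x x', sz e (pt x - pt x') ≤ B := by
    intro x x'
    rw [sz_le]
    intro i
    rw [map_sub, AddEquiv.symm_apply_apply, AddEquiv.symm_apply_apply, Pi.sub_apply, abs_le]
    have h1 := (x i).2
    have h2 := (x' i).2
    omega
  have hmemΛ : ∀ x ∈ F, pt x - pt x0 ∈ Λ := by
    intro x hx
    have h1 : f x = f x0 := by
      rw [(mem_filter.mp hx).2, (mem_filter.mp hx0).2]
    have h2 : ((pt x0 : R × R) : (R × R) ⧸ Λ) = (pt x : R × R) := h1.symm
    rw [QuotientAddGroup.eq] at h2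
    have h3 : pt x - pt x0 = -pt x0 + pt x := by abel
    rw [h3]
    exact h2
  -- the set of differences
  set S : Finset (R × R) := F.image (fun x => pt x - pt x0) with hS
  have hScard : S.card = F.card := by
    rw [hS, Finset.card_image_of_injective]
    intro x x' h
    exact hptinj (sub_left_injective h)
  have hSΛ : ∀ w ∈ S, w ∈ Λ := by
    intro w hw
    obtain ⟨x, hx, rfl⟩ := mem_image.mp hw
    exact hmemΛ x hx
  have hSd : ∀ x ∈ S, ∀ y ∈ S, sz e (x - y) ≤ B := by
    intro w hw w' hw'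
    obtain ⟨x, hx, rfl⟩ := mem_image.mp hw
    obtain ⟨x', hx', rfl⟩ := mem_image.mp hw'
    have : pt x - pt x0 - (pt x' - pt x0) = pt x - pt x' := by abel
    rw [this]
    exact hdiff x x'
  have h0S : (0 : R × R) ∈ S := by
    rw [hS, mem_image]
    exact ⟨x0, hx0, sub_self _⟩
  have hSB : ∀ w ∈ S, sz e w ≤ B := by
    intro w hw
    have := hSd w hw 0 h0S
    rwa [sub_zero] at this
  have hk1 : 1 ≤ k ^ n := Nat.one_le_pow _ _ (Nat.succ_pos _)
  have hS1 : 1 < S.card := by
    rw [hScard]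
    exact lt_of_le_of_lt hk1 hy
  obtain ⟨w1, hw1, hw10⟩ : ∃ w ∈ S, w ≠ 0 := by
    by_contra hcon
    push Not at hcon
    have : S ⊆ {0} := fun w hw => mem_singleton.mpr (hcon w hw)
    have := Finset.card_le_card this
    rw [card_singleton] at this
    omega
  obtain ⟨w2, hw2, hdet⟩ : ∃ w ∈ S, det2 w1 w ≠ 0 := by
    by_contra hcon
    push Not at hcon
    have h1 := packing_line b e Λ hlam0 hlam hw10 S hSΛ hcon hSd
    rw [hScard] at h1
    exact absurd hy (not_lt.mpr h1)
  exact hC Λ hΛ w1 (hSΛ _ hw1) w2 (hSΛ _ hw2) hdet B (hSB _ hw1) (hSB _ hw2)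

end Ring

end Pool.Agent.Helper47.CB
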