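import Pool.Agent.Helper35.CB.TriTwo
import Pool.Agent.Helper23.CB.SieveGThree

/-!
# CB, degree 3: T-TRI with factors of degree at most three
-/

set_option autoImplicit false

namespace Pool.Agent.Helper47.CB

open NumberField Pool.Agent.Helper4.CB Pool.Agent.Helper16.CB
open AlgebraicGeometry CategoryTheory Pool.Agent.Helper15
open Pool.Agent.Helper65.CB Pool.Agent.Helper33.CB Pool.Agent.Helper69.CB Pool.Agent.Helper10.TRI
  Pool.Agent.Helper35.CB

theorem t_tri_three (K : Type) [Field K] [NumberField K] {n r : ℕ}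
    (a b : Fin r → MvPolynomial (Fin n) K)
    (ha : ∀ i, a i ≠ 0) (hb : ∀ i, b i ≠ 0)
    (hP : ∀ i, ∀ P : MvPolynomial (Fin n) (AlgebraicClosure K), Irreducible P →
      P ∣ MvPolynomial.map (algebraMap K (AlgebraicClosure K)) (a i * b i) → TriDeg 3 P ∨
        LCU P (MvPolynomial.map (algebraMap K (AlgebraicClosure K)) (a i))
          (MvPolynomial.map (algebraMap K (AlgebraicClosure K)) (b i)))
    (X : Scheme.{0}) (s : X ⟶ Spec (CommRingCat.of K))
    (hX : DominatedOver K X (Spec (CommRingCat.of (ConRing a b))) s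
      (Spec.map (CommRingCat.ofHom (algebraMap K (ConRing a b))))) :
    PotentiallyDense K X s :=
  t_tri 3 (fun M _ _ => Pool.Agent.Helper35.CB.fstmt 3 M
    (Pool.Agent.Helper23.CB.sieveG_three M)) K a b ha hb hP X s hX

end Pool.Agent.Helper47.CB
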